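import Pool.Agent.N874.PP.Gal

/-!
# A positive proportion of all elliptic curves over `k(t)`, over a Galois 2-extension `M` of `k(t)`:
# statements of the parts

Project PM (helper874). `Fam`, `GoodS`, `IsCub`, `Ov`, `Ev`, `Sq1`, `U0` are in `N874/PP/Def.lean`, `Pt`,
`act`, `rs`, `IsCoc`, `LocTriv`, `Comp`, `Sep` in `TH115/GD/Defs.lean`, `sW`, `IsBeta`, `Rt` in
`N874/PP/Gal.lean`.
-/

set_option autoImplicit false
set_option linter.all false

open Polynomial IsDedekindDomain WeierstrassCurve WeierstrassCurve.Affine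
open Pool.Agent.TH115.GD Pool.Agent.N874.PP
open scoped Classical IntermediateField

namespace Pool.Agent.N874.PM

/-! ### The family with additional conditions -/

/-- The primes in `T` and the residues `A P`, `B P` for which `X ^ 3 + A X + B` has no zero modulo
`P`. -/
def GoodT {k : Type} [Field k] (T : Finset k[X]) (A B : k[X] → k[X]) : Prop :=
  ∀ P ∈ T, P.Monic ∧ Irreducible P ∧ ∀ z : k[X], ¬ P ∣ z ^ 3 + A P * z + B P

/-- The family with the additional conditions at the primes in `T`. -/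
structure FamT {k : Type} [Field k] (N : ℕ) (a₀ b₀ : k) (S : Finset k[X]) (s : k[X] → k[X])
    (T : Finset k[X]) (A B : k[X] → k[X]) (a b : k[X]) : Prop where
  fam : Fam N a₀ b₀ S s a b
  ta : ∀ P ∈ T, P ∣ a - A P
  tb : ∀ P ∈ T, P ∣ b - B P

/-- Many curves in the family (the constant does not depend on `S`). -/
def S_FAMT : Prop := ∀ (k : Type) [Field k] [Finite k], (6 : k) ≠ 0 → ∀ a₀ b₀ : k,
  Irreducible (X ^ 3 + C a₀ * X + C b₀ : k[X]) →
  ∀ (T : Finset k[X]) (A B : k[X] → k[X]), GoodT T A B →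
  ∃ c : ℝ, 0 < c ∧ ∀ (S : Finset k[X]) (s : k[X] → k[X]), GoodS S s → Disjoint S T →
    ∃ N₀ : ℕ, ∀ N ≥ N₀,
    c * (Nat.card k : ℝ) ^ (10 * N) ≤ ((∏ Q ∈ S, nm Q ^ 2 : ℕ) : ℝ) *
      ({p : k[X] × k[X] | FamT N a₀ b₀ S s T A B p.1 p.2}.ncard : ℝ)

/-- Existence of the residues. -/
def S_TCH : Prop := ∀ (k : Type) [Field k] [Finite k], (6 : k) ≠ 0 → ∀ T : Finset k[X],
  (∀ P ∈ T, P.Monic ∧ Irreducible P) → ∃ A B : k[X] → k[X], GoodT T A B

/-! ### Generators, ramification, splitting -/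

/-- `γ` generates `F'` over `F` and is a zero of the monic polynomial `g` over `k[X]`; `δ` is a
combination of `g` and its derivative. -/
structure Gen {k : Type} [Field k] (F : Type) {F' : Type} [Field F] [Field F'] [Algebra F F']
    [Algebra k[X] F'] (γ : F') (g : k[X][X]) (δ : k[X]) : Prop where
  top : F⟮γ⟯ = ⊤
  monic : g.Monic
  root : aeval γ g = 0
  ne : δ ≠ 0
  comb : ∃ u w : k[X][X], C δ = u * g + w * derivative g

/-- The polynomial `g` splits into linear factors modulo `Q`. -/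
def SplitMod {k : Type} [Field k] (Q : k[X]) (g : k[X][X]) : Prop :=
  ∃ (l : Multiset k[X]) (h : k[X][X]), g = (l.map fun c => X - C c).prod + C Q * h

/-- Existence of a generator. -/
def S_GEN : Prop := ∀ (k K M : Type) [Field k] [Finite k] [Field K] [Algebra k[X] K]
  [IsFractionRing k[X] K] [Field M] [Algebra K M] [Algebra k[X] M] [IsScalarTower k[X] K M]
  [FiniteDimensional K M] [Algebra.IsSeparable K M],
  ∃ (γ : M) (g : k[X][X]) (δ : k[X]), Gen K γ g δ ∧ g.natDegree = Module.finrank K M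

/-- Existence of primes modulo which `g` splits. -/
def S_SPL : Prop := ∀ (k K M : Type) [Field k] [Finite k] [Field K] [Algebra k[X] K]
  [IsFractionRing k[X] K] [Field M] [Algebra K M] [Algebra k[X] M] [IsScalarTower k[X] K M]
  [FiniteDimensional K M] [IsGalois K M] (γ : M) (g : k[X][X]) (δ : k[X]), (6 : k) ≠ 0 →
  Gen K γ g δ → g.natDegree = Module.finrank K M → ∀ (T : Finset k[X]) (r : ℕ),
  ∃ (S : Finset k[X]) (s : k[X] → k[X]), GoodS S s ∧ S.card = r ∧ Disjoint S T ∧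
    ∀ Q ∈ S, SplitMod Q g

/-- The extension is unramified at the primes which do not divide `δ`. -/
def S_UR : Prop := ∀ (k F F' O O' : Type) [Field k] [Field F] [Field F'] [Algebra F F']
  [Algebra k[X] F] [Algebra k[X] F'] [IsScalarTower k[X] F F'] [CommRing O] [IsDedekindDomain O]
  [Algebra O F] [IsFractionRing O F] [Algebra k[X] O] [IsScalarTower k[X] O F]
  [IsIntegralClosure O k[X] F] [CommRing O'] [IsDedekindDomain O'] [Algebra O' F']
  [IsFractionRing O' F'] [Algebra k[X] O'] [IsScalarTower k[X] O' F'] [IsIntegralClosure O' k[X] F']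
  (γ : F') (g : k[X][X]) (δ : k[X]), Gen F γ g δ →
  (∀ 𝔓' : HeightOneSpectrum O', ¬ Ov δ 𝔓' → ∃ 𝔓 : HeightOneSpectrum O,
    ∀ x : F, 𝔓'.valuation F' (algebraMap F F' x) = 𝔓.valuation F x) ∧
  (∀ 𝔓 : HeightOneSpectrum O, ¬ Ov δ 𝔓 → ∃ 𝔓' : HeightOneSpectrum O',
    ∀ x : F, 𝔓'.valuation F' (algebraMap F F' x) = 𝔓.valuation F x)

/-- Density at the primes `Q` modulo which `g` splits. -/
def S_SPD : Prop := ∀ (k F F' O' : Type) [Field k] [Field F] [Field F'] [Algebra F F']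
  [Algebra k[X] F] [Algebra k[X] F'] [IsScalarTower k[X] F F'] [CommRing O'] [IsDedekindDomain O']
  [Algebra O' F'] [IsFractionRing O' F'] [Algebra k[X] O'] [IsScalarTower k[X] O' F']
  (γ : F') (g : k[X][X]) (δ : k[X]), Gen F γ g δ → ∀ Q : k[X], Irreducible Q → SplitMod Q g →
  ∀ 𝔓' : HeightOneSpectrum O', Ov Q 𝔓' → ¬ Ov δ 𝔓' → ∀ s : F', s ≠ 0 →
    ∃ s₀ : F, 𝔓'.valuation F' (s - algebraMap F F' s₀) < 𝔓'.valuation F' s

/-- The automorphisms permute the primes. -/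
def S_SIG : Prop := ∀ (k F' O' : Type) [Field k] [Field F'] [Algebra k[X] F'] [CommRing O']
  [IsDedekindDomain O'] [Algebra O' F'] [IsFractionRing O' F'] [Algebra k[X] O']
  [IsScalarTower k[X] O' F'] [IsIntegralClosure O' k[X] F'] (σ : F' ≃ₐ[k[X]] F')
  (𝔓 : HeightOneSpectrum O'), ∃ 𝔓' : HeightOneSpectrum O',
    (∀ x : F', 𝔓'.valuation F' x = 𝔓.valuation F' (σ x)) ∧ ∀ P : k[X], Ov P 𝔓' ↔ Ov P 𝔓

/-- The parity at the prime over `P` if the cubic polynomial is irreducible modulo `P`. -/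
def S_P3 : Prop := ∀ (k K L O : Type) [Field k] [Field K] [Algebra k[X] K] [IsFractionRing k[X] K]
  [Field L] [Algebra K L] [Algebra k[X] L] [IsScalarTower k[X] K L] [CommRing O]
  [IsDedekindDomain O] [Algebra O L] [IsFractionRing O L] [Algebra k[X] O]
  [IsScalarTower k[X] O L] [IsIntegralClosure O k[X] L] (a b : k[X]) (θ : L),
  (6 : k) ≠ 0 → IsCub K a b θ → Squarefree (dsc a b) →
  ∀ P : k[X], Irreducible P → (∀ z : k[X], ¬ P ∣ z ^ 3 + a * z + b) →
  ∀ x : L, x ≠ 0 → IsSquare (Algebra.norm K x) →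
    ∀ 𝔓 : HeightOneSpectrum O, Ov P 𝔓 → Ev 𝔓 x

/-! ### Galois descent along 2-extensions -/

/-- Descent along a quadratic extension. -/
def S_QS : Prop := ∀ (K L M Ω : Type) [Field K] [Field L] [Field M] [Field Ω] [Algebra K L]
  [Algebra K M] [Algebra L Ω] [Algebra M Ω] [Algebra K Ω] [IsScalarTower K L Ω]
  [IsScalarTower K M Ω], (2 : K) ≠ 0 → Module.finrank K M = 2 → Module.finrank K L = 3 →
  Module.finrank M Ω = 3 → ∀ C : Ω → Prop, (∀ x : Ω, x ≠ 0 → C (x ^ 2)) →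
  (∀ x y : Ω, x ≠ 0 → y ≠ 0 → C x → C y → C (x * y)) →
  (∀ (σ : Ω ≃ₐ[L] Ω) (x : Ω), C x → C (σ x)) →
  (∀ x : L, x ≠ 0 → C (algebraMap L Ω x) → IsSquare (Algebra.norm K x) → IsSquare x) →
  ∀ x : Ω, x ≠ 0 → C x → IsSquare (Algebra.norm M x) → IsSquare x

/-- Descent along a Galois 2-extension. -/
def S_TOW : Prop := ∀ (n : ℕ) (K L M Ω : Type) [Field K] [Field L] [Field M] [Field Ω]
  [Algebra K L] [Algebra K M] [Algebra L Ω] [Algebra M Ω] [Algebra K Ω] [IsScalarTower K L Ω]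
  [IsScalarTower K M Ω] [IsGalois K M], (2 : K) ≠ 0 → Module.finrank K M = 2 ^ n →
  Module.finrank K L = 3 → Module.finrank M Ω = 3 →
  ∀ C : Ω → Prop, (∀ x : Ω, x ≠ 0 → C (x ^ 2)) →
  (∀ x y : Ω, x ≠ 0 → y ≠ 0 → C x → C y → C (x * y)) →
  (∀ (σ : Ω ≃ₐ[L] Ω) (x : Ω), C x → C (σ x)) →
  (∀ x : L, x ≠ 0 → C (algebraMap L Ω x) → IsSquare (Algebra.norm K x) → IsSquare x) →
  ∀ x : Ω, x ≠ 0 → C x → IsSquare (Algebra.norm M x) → IsSquare x

/-! ### Local analysis of points over `M` -/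

/-- The local condition over an extension `F` of `M`: the class of `h(Θ)` comes from a point of
`y ^ 2 = x ^ 3 + A x + B` over `F` (not of order two). -/
def PLoc {M : Type} (F : Type) [Field M] [Field F] [Algebra M F] (A B : M) (h : M[X]) : Prop :=
  (∃ g : F[X], X ^ 3 + C (algebraMap M F A) * X + C (algebraMap M F B) ∣
      h.map (algebraMap M F) - g ^ 2) ∨
  ∃ x y : F, y ≠ 0 ∧ y ^ 2 = x ^ 3 + algebraMap M F A * x + algebraMap M F B ∧
    ∃ g : F[X], X ^ 3 + C (algebraMap M F A) * X + C (algebraMap M F B) ∣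
      (C x - X) * h.map (algebraMap M F) - g ^ 2

/-- `𝔓` lies over `w`. -/
structure Lies {M Ω R O : Type} [Field M] [Field Ω] [Algebra M Ω] [CommRing R]
    [IsDedekindDomain R] [Algebra R M] [IsFractionRing R M] [CommRing O] [IsDedekindDomain O]
    [Algebra O Ω] [IsFractionRing O Ω] (w : HeightOneSpectrum R) (𝔓 : HeightOneSpectrum O) :
    Prop where
  le : ∀ x : M, w.valuation M x ≤ 1 → 𝔓.valuation Ω (algebraMap M Ω x) ≤ 1
  lt : ∀ x : M, w.valuation M x < 1 → 𝔓.valuation Ω (algebraMap M Ω x) < 1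

/-- Every prime lies over a prime. -/
def S_LIE : Prop := ∀ (k F F' O O' : Type) [Field k] [Field F] [Field F'] [Algebra F F']
  [Algebra k[X] F] [Algebra k[X] F'] [IsScalarTower k[X] F F'] [CommRing O] [IsDedekindDomain O]
  [Algebra O F] [IsFractionRing O F] [Algebra k[X] O] [IsScalarTower k[X] O F]
  [IsIntegralClosure O k[X] F] [CommRing O'] [IsDedekindDomain O'] [Algebra O' F']
  [IsFractionRing O' F'] [Algebra k[X] O'] [IsScalarTower k[X] O' F'] [IsIntegralClosure O' k[X] F']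
  (𝔓' : HeightOneSpectrum O'), ∃ 𝔓 : HeightOneSpectrum O, Lies (M := F) (Ω := F') 𝔓 𝔓' ∧
    ∀ P : k[X], Ov P 𝔓 ↔ Ov P 𝔓'

/-- Primes not dividing `D`, with discriminant of valuation at most one. -/
def S_LOC1M : Prop := ∀ (M Ω R O : Type) [Field M] [Field Ω] [Algebra M Ω] [CommRing R]
  [IsDedekindDomain R] [Algebra R M] [IsFractionRing R M] [CommRing O] [IsDedekindDomain O]
  [Algebra O Ω] [IsFractionRing O Ω] (w : HeightOneSpectrum R) (𝔓 : HeightOneSpectrum O),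
  Lies (M := M) (Ω := Ω) w 𝔓 → ∀ (a b D : M) (θ : Ω) (h : M[X]),
  θ ^ 3 + algebraMap M Ω a * θ + algebraMap M Ω b = 0 → w.valuation M 6 = 1 →
  w.valuation M a ≤ 1 → w.valuation M b ≤ 1 → w.valuation M D = 1 →
  WithZero.exp (-1 : ℤ) ≤ w.valuation M (4 * a ^ 3 + 27 * b ^ 2) →
  PLoc (w.adicCompletion M) (a * D ^ 2) (b * D ^ 3) h →
  aeval (algebraMap M Ω D * θ) h ≠ 0 →
  Ev 𝔓 (aeval (algebraMap M Ω D * θ) h)

/-- Primes dividing `D = ϖ D'`. -/
def S_LOC2M : Prop := ∀ (M Ω R O : Type) [Field M] [Field Ω] [Algebra M Ω] [CommRing R]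
  [IsDedekindDomain R] [Algebra R M] [IsFractionRing R M] [CommRing O] [IsDedekindDomain O]
  [Algebra O Ω] [IsFractionRing O Ω] (w : HeightOneSpectrum R) (𝔓 : HeightOneSpectrum O)
  [Finite (R ⧸ w.asIdeal)],
  Lies (M := M) (Ω := Ω) w 𝔓 → ∀ (a b ϖ D' : M) (θ : Ω) (h : M[X]),
  θ ^ 3 + algebraMap M Ω a * θ + algebraMap M Ω b = 0 → w.valuation M 6 = 1 →
  w.valuation M a ≤ 1 → w.valuation M b < 1 → w.valuation M ϖ = WithZero.exp (-1 : ℤ) →
  w.valuation M D' = 1 → (∀ z : M, w.valuation M z ≤ 1 → ¬ w.valuation M (z ^ 2 + a) < 1) →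
  PLoc (w.adicCompletion M) (a * (ϖ * D') ^ 2) (b * (ϖ * D') ^ 3) h →
  aeval (algebraMap M Ω (ϖ * D') * θ) h ≠ 0 →
  (𝔓.valuation Ω θ = 1 → ¬ Ev 𝔓 (algebraMap M Ω ϖ * θ) →
    U0 𝔓 (algebraMap M Ω ϖ * θ) (aeval (algebraMap M Ω (ϖ * D') * θ) h)) ∧
  (𝔓.valuation Ω θ < 1 → Ev 𝔓 (aeval (algebraMap M Ω (ϖ * D') * θ) h))

/-! ### Galois cohomology over `M` -/

/-- The local condition. -/
def S_GLR : Prop := ∀ (M R : Type) [Field M] [CommRing R] [IsDedekindDomain R] [Algebra R M]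
  [IsFractionRing R M] (A B : M), (6 : M) ≠ 0 → 4 * A ^ 3 + 27 * B ^ 2 ≠ 0 →
  ∀ f : (Sep M ≃ₐ[M] Sep M) → Pt (sW A B) (Sep M), IsCoc (sW A B) f → (∀ σ, (2 : ℕ) • f σ = 0) →
  ∀ (β : Sep M → Sep M) (h : M[X]), IsBeta A B f β →
    (∀ t : Sep M, Rt A B t → aeval t h = β t ^ 2) →
    ∀ v : HeightOneSpectrum R, v.valuation M 2 = 1 →
      LocTriv (sW A B) (Comp R M v) (Sep (Comp R M v)) f → PLoc (Comp R M v) A B h

/-- The 2-Selmer group (without conditions at the places outside `R`) is zero. -/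
def SelR (R : Type) {M : Type} [Field M] [CommRing R] [IsDedekindDomain R] [Algebra R M]
    [IsFractionRing R M] (W : WeierstrassCurve M) : Prop :=
  ∀ f : (Sep M ≃ₐ[M] Sep M) → Pt W (Sep M), IsCoc W f → (∀ σ, (2 : ℕ) • f σ = 0) →
    (∀ v : HeightOneSpectrum R, LocTriv W (Comp R M v) (Sep (Comp R M v)) f) →
    ∃ T : Pt W (Sep M), (2 : ℕ) • T = 0 ∧ ∀ σ, f σ = act W (rs M σ) T - T

/-- Every class of 2-power order in `H ^ 1 (M, W)` which is trivial over the completion of `M` at every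
maximal ideal of `R` is zero. -/
def ShaR (R : Type) {M : Type} [Field M] [CommRing R] [IsDedekindDomain R] [Algebra R M]
    [IsFractionRing R M] (W : WeierstrassCurve M) : Prop :=
  ∀ f : (Sep M ≃ₐ[M] Sep M) → Pt W (Sep M), IsCoc W f →
    (∀ v : HeightOneSpectrum R, LocTriv W (Comp R M v) (Sep (Comp R M v)) f) →
    (∃ (n : ℕ) (Q : Pt W (Sep M)), ∀ σ, 2 ^ n • f σ = act W (rs M σ) Q - Q) →
    ∃ Q : Pt W (Sep M), ∀ σ, f σ = act W (rs M σ) Q - Q

/-- Consequences of `SelR`. -/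
def S_GFR : Prop := ∀ (M R : Type) [Field M] [CommRing R] [IsDedekindDomain R] [Algebra R M]
  [IsFractionRing R M] (A B : M), (6 : M) ≠ 0 → 4 * A ^ 3 + 27 * B ^ 2 ≠ 0 → SelR R (sW A B) →
  (∀ P : Pt (sW A B) M, ∃ Q : Pt (sW A B) M, P = (2 : ℕ) • Q) ∧ ShaR R (sW A B)

/-- Finiteness from divisibility by two, over a finite extension of `k(t)`. -/
def S_FINM : Prop := ∀ (k K M : Type) [Field k] [Finite k] [Field K] [Algebra k[X] K]
  [IsFractionRing k[X] K] [Field M] [Algebra K M] [FiniteDimensional K M] [IsGalois K M] (A B : K),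
  (6 : k) ≠ 0 → 4 * A ^ 3 + 27 * B ^ 2 ≠ 0 →
  (∀ P : Pt (sW (algebraMap K M A) (algebraMap K M B)) M,
    ∃ Q : Pt (sW (algebraMap K M A) (algebraMap K M B)) M, P = (2 : ℕ) • Q) →
  Finite (Pt (sW (algebraMap K M A) (algebraMap K M B)) M)

end Pool.Agent.N874.PM
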