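import Pool.Agent.N874.PM.Big4
import Pool.Agent.N874.PP.Sel2

/-!
# The 2-Selmer group over the extension: the fields

Project PM (helper874).
-/

set_option autoImplicit false
set_option linter.all false

open Polynomial IsDedekindDomain WeierstrassCurve WeierstrassCurve.Affine
open Pool.Agent.TH115.GD
open Pool.Agent.N874.PP
open scoped Classical IntermediateField

namespace Pool.Agent.N874.PM

/-- A cubic polynomial which is irreducible over `K` is irreducible over an extension of degree
`2 ^ n`. -/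
theorem irr_up {K M : Type} [Field K] [Field M] [Algebra K M] [FiniteDimensional K M] {n : ℕ}
    (hM : Module.finrank K M = 2 ^ n) {A B : K} (h : Irreducible (X ^ 3 + C A * X + C B : K[X])) :
    Irreducible (X ^ 3 + C (algebraMap K M A) * X + C (algebraMap K M B) : M[X]) := by
  have hm : (X ^ 3 + C (algebraMap K M A) * X + C (algebraMap K M B) : M[X]).Monic := by
    monicity!
  have hd : (X ^ 3 + C (algebraMap K M A) * X + C (algebraMap K M B) : M[X]).natDegree = 3 := by
    compute_degree!
  have hmK : (X ^ 3 + C A * X + C B : K[X]).Monic := by monicity!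
  have hdK : (X ^ 3 + C A * X + C B : K[X]).natDegree = 3 := by compute_degree!
  rw [Monic.irreducible_iff_roots_eq_zero_of_degree_le_three hm (by omega) (by omega)]
  rw [Multiset.eq_zero_iff_forall_notMem]
  intro t ht
  have ht' : (X ^ 3 + C (algebraMap K M A) * X + C (algebraMap K M B) : M[X]).IsRoot t :=
    (mem_roots hm.ne_zero).1 ht
  have h1 : aeval t (X ^ 3 + C A * X + C B : K[X]) = 0 := by
    simpa [IsRoot.def] using ht'
  have h2 : minpoly K t = X ^ 3 + C A * X + C B :=
    (minpoly.eq_of_irreducible_of_monic h h1 hmK).symm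
  have h3 : (minpoly K t).natDegree ∣ Module.finrank K M :=
    minpoly.degree_dvd (Algebra.IsIntegral.isIntegral t)
  rw [h2, hdK, hM] at h3
  have h4 := (Nat.prime_three.dvd_of_dvd_pow h3)
  omega

/-- `γ` generates `Ω` over `L`. -/
theorem top_up {K L M Ω : Type} [Field K] [Field L] [Field M] [Field Ω] [Algebra K L]
    [Algebra K M] [Algebra L Ω] [Algebra M Ω] [Algebra K Ω] [IsScalarTower K L Ω]
    [IsScalarTower K M Ω] {γ : M} (hγ : K⟮γ⟯ = ⊤) {θ : L} (hθ : M⟮algebraMap L Ω θ⟯ = ⊤) :
    L⟮algebraMap M Ω γ⟯ = ⊤ := by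
  let E : IntermediateField K Ω := (L⟮algebraMap M Ω γ⟯).restrictScalars K
  have h1 : ∀ x : M, algebraMap M Ω x ∈ E := by
    have h2 : K⟮γ⟯ ≤ E.comap (IsScalarTower.toAlgHom K M Ω) := by
      rw [IntermediateField.adjoin_simple_le_iff]
      exact IntermediateField.mem_adjoin_simple_self L (algebraMap M Ω γ)
    intro x
    have h3 : x ∈ K⟮γ⟯ := by rw [hγ]; trivial
    exact h2 h3
  let E' : IntermediateField M Ω :=
    { E.toSubfield with
      algebraMap_mem' := h1 }
  have h4 : M⟮algebraMap L Ω θ⟯ ≤ E' := by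
    rw [IntermediateField.adjoin_simple_le_iff]
    exact (L⟮algebraMap M Ω γ⟯).algebraMap_mem θ
  rw [hθ] at h4
  rw [eq_top_iff]
  intro x _
  exact h4 (show x ∈ (⊤ : IntermediateField M Ω) from trivial)

section mid

variable {k K L M Ω : Type} [Field k] [Finite k] [Field K] [Field L] [Field M]
  [Field Ω]
  [Algebra k[X] K] [IsFractionRing k[X] K]
  [Algebra K L] [Algebra k[X] L] [IsScalarTower k[X] K L]
  [Algebra K M] [Algebra k[X] M] [IsScalarTower k[X] K M]
  [Algebra L Ω] [Algebra M Ω] [Algebra K Ω] [IsScalarTower K L Ω] [IsScalarTower K M Ω]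
  [Algebra k[X] Ω] [IsScalarTower k[X] L Ω] [IsScalarTower k[X] M Ω]
  [FiniteDimensional K L] [Algebra.IsSeparable K L] [FiniteDimensional K M] [IsGalois K M]
  [FiniteDimensional K Ω] [Algebra.IsSeparable K Ω] (R : Type)
  [CommRing R] [IsDedekindDomain R] [Algebra R M] [IsFractionRing R M] [Algebra k[X] R]
  [IsScalarTower k[X] R M] [IsIntegralClosure R k[X] M]

include Ω in
theorem selR_mid (H : Parts) {a b : k[X]} {θ : L} {N : ℕ} {a₀ b₀ : k} {S T : Finset k[X]}
    {s A B : k[X] → k[X]} (h6 : (6 : k) ≠ 0) (hc : IsCub K a b θ)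
    (hirr : Irreducible (X ^ 3 + C a₀ * X + C b₀ : k[X])) (hS : GoodS S s)
    (hF : FamT N a₀ b₀ S s T A B a b) (hnb : ¬ LBad N S s a b) (hT : GoodT T A B)
    {γ : M} {g : k[X][X]} {δ : k[X]} (hG : Gen K γ g δ)
    (hθ : M⟮algebraMap L Ω θ⟯ = ⊤) (hsp : ∀ Q ∈ S, SplitMod Q g)
    (hδ : ∀ P : k[X], P.Monic → Irreducible P → P ∣ δ → P ∈ T) (hdis : Disjoint S T)
    {n : ℕ} (hM : Module.finrank K M = 2 ^ n) (hΩ : Module.finrank M Ω = 3)
    (hirrM : ∀ D : k[X], D ≠ 0 → Irreducible (X ^ 3 + C (algebraMap k[X] M (a * D ^ 2)) * X +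
      C (algebraMap k[X] M (b * D ^ 3)) : M[X])) :
    ∃ J ⊆ S, SelR R (sW (algebraMap k[X] M (a * (∏ Q ∈ J, Q) ^ 2))
      (algebraMap k[X] M (b * (∏ Q ∈ J, Q) ^ 3))) := by
  haveI : IsScalarTower k[X] K Ω := by
    refine IsScalarTower.of_algebraMap_eq fun x => ?_
    rw [IsScalarTower.algebraMap_apply k[X] M Ω, IsScalarTower.algebraMap_apply k[X] K M,
      ← IsScalarTower.algebraMap_apply K M Ω]
  haveI : IsDedekindDomain (integralClosure k[X] L) := integralClosure.isDedekindDomain k[X] K L
  haveI : IsFractionRing (integralClosure k[X] L) L :=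
    integralClosure.isFractionRing_of_finite_extension K L
  haveI : Module.Finite k[X] (integralClosure k[X] L) := IsIntegralClosure.finite k[X] K L _
  haveI : Module.Finite k[X] R := IsIntegralClosure.finite k[X] K M R
  haveI : IsDedekindDomain (integralClosure k[X] Ω) := integralClosure.isDedekindDomain k[X] K Ω
  haveI : IsFractionRing (integralClosure k[X] Ω) Ω :=
    integralClosure.isFractionRing_of_finite_extension K Ω
  haveI : Module.Finite k[X] (integralClosure k[X] Ω) := IsIntegralClosure.finite k[X] K Ω _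
  have hG' : Gen L (algebraMap M Ω γ) g δ := by
    refine ⟨top_up (K := K) hG.top hθ, hG.monic, ?_, hG.ne, hG.comb⟩
    rw [aeval_algebraMap_apply, hG.root, map_zero]
  exact selR_abs (integralClosure k[X] L) (integralClosure k[X] Ω)
    R H h6 hc hirr hS hF hnb hT hG hG' hsp hδ hdis hM hΩ hirrM

end mid

/-- Adjoining a zero of a cubic polynomial. -/
theorem exists_field {M : Type} [Field M] {p : M[X]} (hp : Irreducible p) (hm : p.Monic)
    (hd : p.natDegree = 3) : ∃ (Ω : Type) (_ : Field Ω) (_ : Algebra M Ω) (t : Ω),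
      aeval t p = 0 ∧ Module.finrank M Ω = 3 ∧ M⟮t⟯ = ⊤ ∧ FiniteDimensional M Ω ∧
      minpoly M t = p := by
  haveI hf : Fact (Irreducible p) := ⟨hp⟩
  haveI : FiniteDimensional M (AdjoinRoot p) := hm.finite_adjoinRoot
  have hr : Module.finrank M (AdjoinRoot p) = 3 := by
    rw [(AdjoinRoot.powerBasis hm.ne_zero).finrank, AdjoinRoot.powerBasis_dim, hd]
  have h0 : aeval (AdjoinRoot.root p) p = 0 := by
    rw [aeval_def]
    exact AdjoinRoot.eval₂_root _
  have hmin : minpoly M (AdjoinRoot.root p) = p :=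
    (minpoly.eq_of_irreducible_of_monic hp h0 hm).symm
  refine ⟨AdjoinRoot p, inferInstance, inferInstance, AdjoinRoot.root p, h0, hr, ?_, inferInstance,
    hmin⟩
  rw [Field.primitive_element_iff_minpoly_natDegree_eq, hmin, hd, hr]

/-- The theorem on the Selmer group over `M`. -/
theorem selR (H : Parts) (hIRK : S_IRK) {k : Type} [Field k] [Finite k] (K M : Type) [Field K]
    [Algebra k[X] K] [IsFractionRing k[X] K] [Field M] [Algebra K M] [Algebra k[X] M]
    [IsScalarTower k[X] K M] [FiniteDimensional K M] [IsGalois K M] (R : Type)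
    [CommRing R] [IsDedekindDomain R] [Algebra R M] [IsFractionRing R M] [Algebra k[X] R]
    [IsScalarTower k[X] R M] [IsIntegralClosure R k[X] M] {n : ℕ}
    (hM : Module.finrank K M = 2 ^ n) {a b : k[X]} {N : ℕ} {a₀ b₀ : k} {S T : Finset k[X]}
    {s A B : k[X] → k[X]} (h6 : (6 : k) ≠ 0)
    (hirr : Irreducible (X ^ 3 + C a₀ * X + C b₀ : k[X])) (hS : GoodS S s)
    (hF : FamT N a₀ b₀ S s T A B a b) (hnb : ¬ LBad N S s a b) (hT : GoodT T A B)
    {γ : M} {g : k[X][X]} {δ : k[X]} (hG : Gen K γ g δ) (hsp : ∀ Q ∈ S, SplitMod Q g)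
    (hδ : ∀ P : k[X], P.Monic → Irreducible P → P ∣ δ → P ∈ T) (hdis : Disjoint S T) :
    ∃ J ⊆ S, SelR R (sW (algebraMap k[X] M (a * (∏ Q ∈ J, Q) ^ 2))
      (algebraMap k[X] M (b * (∏ Q ∈ J, Q) ^ 3))) := by
  have hirr' : Irreducible (X ^ 3 + C (a.coeff (4 * N)) * X + C (b.coeff (6 * N)) : k[X]) := by
    rw [hF.fam.ca, hF.fam.cb]
    exact hirr
  have hI := hIRK k K a b N hF.fam.da hF.fam.db hirr'
  haveI hfact : Fact (Irreducible (FF K a b)) := ⟨by
    have := hI 1 one_ne_zero
    rw [one_pow, one_pow, mul_one, mul_one] at this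
    exact this⟩
  have hc := isCub_adjoinRoot (K := K) a b
  have h6K : (6 : K) ≠ 0 := by
    have : (6 : K) = algebraMap k[X] K (C 6) := by
      rw [show (C (6 : k) : k[X]) = 6 from rfl, map_ofNat]
    rw [this, Ne, IsFractionRing.to_map_eq_zero_iff, C_eq_zero]
    exact h6
  haveI : FiniteDimensional K (AdjoinRoot (FF K a b)) :=
    (FF_monic (K := K) a b).finite_adjoinRoot
  haveI : Algebra.IsSeparable K (AdjoinRoot (FF K a b)) := sep_adjoinRoot h6K a b
  have hirrM : ∀ D : k[X], D ≠ 0 → Irreducible (X ^ 3 + C (algebraMap k[X] M (a * D ^ 2)) * X +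
      C (algebraMap k[X] M (b * D ^ 3)) : M[X]) := by
    intro D hD
    have h := irr_up hM (hI D hD)
    rwa [← IsScalarTower.algebraMap_apply k[X] K M, ← IsScalarTower.algebraMap_apply k[X] K M] at h
  haveI hfactM : Fact (Irreducible (FF M a b)) := ⟨by
    have := hirrM 1 one_ne_zero
    rw [one_pow, one_pow, mul_one, mul_one] at this
    exact this⟩
  have hFm : (FF M a b).Monic := by
    unfold FF
    monicity!
  have hFd : (FF M a b).natDegree = 3 := by
    unfold FF
    compute_degree!
  have hFmap : FF M a b = (FF K a b).map (algebraMap K M) := by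
    unfold FF
    simp only [Polynomial.map_add, Polynomial.map_mul, Polynomial.map_pow, map_X, map_C,
      ← IsScalarTower.algebraMap_apply k[X] K M]
  obtain ⟨Ω, instF, instA, t, ht, hr, htop, hfin, hmin⟩ := exists_field hfactM.out hFm hFd
  letI : Algebra K Ω := ((algebraMap M Ω).comp (algebraMap K M)).toAlgebra
  haveI : IsScalarTower K M Ω := IsScalarTower.of_algebraMap_eq fun x => rfl
  letI : Algebra k[X] Ω := ((algebraMap M Ω).comp (algebraMap k[X] M)).toAlgebra
  haveI : IsScalarTower k[X] M Ω := IsScalarTower.of_algebraMap_eq fun x => rfl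
  have ht' : (FF K a b).eval₂ (algebraMap K Ω) t = 0 := by
    rw [hFmap, aeval_def, eval₂_map] at ht
    exact ht
  letI : Algebra (AdjoinRoot (FF K a b)) Ω := (AdjoinRoot.lift (algebraMap K Ω) t ht').toAlgebra
  have hL : ∀ x : AdjoinRoot (FF K a b), algebraMap (AdjoinRoot (FF K a b)) Ω x =
      AdjoinRoot.lift (algebraMap K Ω) t ht' x := fun x => rfl
  haveI : IsScalarTower K (AdjoinRoot (FF K a b)) Ω := by
    refine IsScalarTower.of_algebraMap_eq fun x => ?_
    rw [hL, AdjoinRoot.algebraMap_eq, AdjoinRoot.lift_of]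
  haveI : IsScalarTower k[X] (AdjoinRoot (FF K a b)) Ω := by
    refine IsScalarTower.of_algebraMap_eq fun x => ?_
    rw [IsScalarTower.algebraMap_apply k[X] K (AdjoinRoot (FF K a b)),
      ← IsScalarTower.algebraMap_apply K (AdjoinRoot (FF K a b)) Ω,
      IsScalarTower.algebraMap_apply k[X] M Ω, IsScalarTower.algebraMap_apply k[X] K M,
      ← IsScalarTower.algebraMap_apply K M Ω]
  haveI : FiniteDimensional K Ω := FiniteDimensional.trans K M Ω
  have h6M : (6 : M) ≠ 0 := by
    have e : (6 : M) = algebraMap K M 6 := by rw [map_ofNat]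
    rw [e, Ne, map_eq_zero]
    exact h6K
  haveI : Algebra.IsSeparable M Ω := by
    have hs : (FF M a b).Separable := by
      rw [separable_iff_derivative_ne_zero hfactM.out]
      intro h0
      have h1 : (derivative (FF M a b)).coeff 2 = 3 := by
        rw [coeff_derivative]
        simp [FF, coeff_X, coeff_C]
        norm_num
      rw [h0, coeff_zero] at h1
      apply h6M
      rw [show (6 : M) = 2 * 3 by norm_num, ← h1, mul_zero]
    have hsep : IsSeparable M t := by
      unfold IsSeparable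
      rw [hmin]
      exact hs
    haveI := (IntermediateField.isSeparable_adjoin_simple_iff_isSeparable M Ω).2 hsep
    rw [htop] at this
    exact AlgEquiv.Algebra.isSeparable (IntermediateField.topEquiv (F := M) (E := Ω))
  haveI : Algebra.IsSeparable K Ω := Algebra.IsSeparable.trans K M Ω
  have hroot : algebraMap (AdjoinRoot (FF K a b)) Ω (AdjoinRoot.root (FF K a b)) = t := by
    rw [hL, AdjoinRoot.lift_root]
  exact selR_mid (K := K) (L := AdjoinRoot (FF K a b)) (Ω := Ω) R H h6 hc hirr hS hF hnb hT hG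
    (by rw [hroot]; exact htop) hsp hδ hdis hM hr hirrM

end Pool.Agent.N874.PM
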