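import Pool.Agent.N874.PM.Big2
import Pool.Agent.N539.PP.Cls

/-!
# Conditions over the extension: the top

Project PM (helper874).
-/

set_option autoImplicit false
set_option linter.all false

open Polynomial IsDedekindDomain WeierstrassCurve WeierstrassCurve.Affine
open Pool.Agent.TH115.GD
open Pool.Agent.N874.PP
open scoped Classical IntermediateField

namespace Pool.Agent.N874.PM

section approx

variable {A K : Type} [CommRing A] [IsDedekindDomain A] [IsPrincipalIdealRing A] [Field K]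
  [Algebra A K] [IsFractionRing A K]

theorem poly_approx (v : HeightOneSpectrum A) {z : K} (hz : v.valuation K z ≤ 1) :
    ∃ z₁ : A, v.valuation K (z - algebraMap A K z₁) < 1 := by
  obtain ⟨n, d, hco, hnd⟩ := IsFractionRing.exists_reduced_fraction (A := A) z
  have hz' : z * algebraMap A K d = algebraMap A K n := by
    rw [← hnd]
    exact IsLocalization.mk'_spec K n d
  have hd : (d : A) ∉ v.asIdeal := by
    intro hd
    have hn : n ∈ v.asIdeal := by
      rw [← HeightOneSpectrum.valuation_lt_one_iff_mem (K := K)]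
      change v.valuation K (algebraMap A K n) < 1
      rw [← hz', map_mul]
      refine lt_of_le_of_lt (mul_le_mul' hz le_rfl) ?_
      rw [one_mul, HeightOneSpectrum.valuation_lt_one_iff_mem]
      exact hd
    obtain ⟨u, w, huw⟩ := hco.isCoprime
    apply v.isPrime.ne_top
    rw [Ideal.eq_top_iff_one, ← huw]
    exact Ideal.add_mem _ (Ideal.mul_mem_left _ _ hn) (Ideal.mul_mem_left _ _ hd)
  haveI := v.isMaximal
  obtain ⟨e, he⟩ := Ideal.Quotient.exists_inv (I := v.asIdeal) (a := (Ideal.Quotient.mk v.asIdeal d))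
    (by rwa [Ne, Ideal.Quotient.eq_zero_iff_mem])
  obtain ⟨e, rfl⟩ := Ideal.Quotient.mk_surjective e
  rw [← map_mul, ← map_one (Ideal.Quotient.mk v.asIdeal), Ideal.Quotient.eq] at he
  refine ⟨n * e, ?_⟩
  have e1 : z - algebraMap A K (n * e) = - (z * algebraMap A K (d * e - 1)) := by
    rw [map_mul, ← hz', map_sub, map_mul, map_one]
    ring
  rw [e1, Valuation.map_neg, map_mul]
  refine lt_of_le_of_lt (mul_le_mul' hz le_rfl) ?_
  rw [one_mul, HeightOneSpectrum.valuation_lt_one_iff_mem]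
  exact he

end approx

section small

variable {k M R : Type} [Field k] [Field M] [Algebra k[X] M] [CommRing R] [IsDedekindDomain R]
  [Algebra R M] [IsFractionRing R M] [Algebra k[X] R] [IsScalarTower k[X] R M]

theorem ov_mul {P Q : k[X]} {w : HeightOneSpectrum R} (h : Ov (P * Q) w) : Ov P w ∨ Ov Q w := by
  unfold Ov at *
  rw [map_mul] at h
  exact w.isPrime.mem_or_mem h

theorem ov_prod {J : Finset k[X]} {w : HeightOneSpectrum R} (h : Ov (∏ Q ∈ J, Q) w) :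
    ∃ Q ∈ J, Ov Q w := by
  unfold Ov at *
  rw [map_prod] at h
  haveI := w.isPrime
  exact (Ideal.IsPrime.prod_mem_iff).1 h

theorem not_ov_unit {P : k[X]} (hP : IsUnit P) (w : HeightOneSpectrum R) : ¬ Ov P w := by
  intro h
  exact w.isPrime.ne_top (Ideal.eq_top_of_isUnit_mem _ h (hP.map _))

theorem val_six (h6 : (6 : k) ≠ 0) (w : HeightOneSpectrum R) : w.valuation M 6 = 1 := by
  have e : (6 : M) = algebraMap k[X] M (C 6) := by
    rw [show (C (6 : k) : k[X]) = 6 from rfl, map_ofNat]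
  rw [e]
  refine val_eq_of _ w (not_ov_unit ?_ w)
  rw [isUnit_C]
  exact h6.isUnit

theorem val_two (h6 : (6 : k) ≠ 0) (w : HeightOneSpectrum R) : w.valuation M 2 = 1 := by
  have e : (2 : M) = algebraMap k[X] M (C 2) := by
    rw [show (C (2 : k) : k[X]) = 2 from rfl, map_ofNat]
  rw [e]
  refine val_eq_of _ w (not_ov_unit ?_ w)
  rw [isUnit_C]
  apply IsUnit.mk0
  intro h
  apply h6
  have : (6 : k) = 2 * 3 := by norm_num
  rw [this, h, zero_mul]

end small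

section top

variable {k K L M Ω : Type} (O O' R : Type) [Field k] [Finite k] [Field K] [Field L] [Field M]
  [Field Ω]
  [Algebra k[X] K] [IsFractionRing k[X] K]
  [Algebra K L] [Algebra k[X] L] [IsScalarTower k[X] K L]
  [Algebra K M] [Algebra k[X] M] [IsScalarTower k[X] K M]
  [Algebra L Ω] [Algebra M Ω] [Algebra K Ω] [IsScalarTower K L Ω] [IsScalarTower K M Ω]
  [Algebra k[X] Ω] [IsScalarTower k[X] L Ω] [IsScalarTower k[X] M Ω]
  [CommRing O] [IsDedekindDomain O] [Algebra O L] [IsFractionRing O L] [Algebra k[X] O]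
  [IsScalarTower k[X] O L] [IsIntegralClosure O k[X] L]
  [CommRing O'] [IsDedekindDomain O'] [Algebra O' Ω] [IsFractionRing O' Ω] [Algebra k[X] O']
  [IsScalarTower k[X] O' Ω] [IsIntegralClosure O' k[X] Ω]
  [CommRing R] [IsDedekindDomain R] [Algebra R M] [IsFractionRing R M] [Algebra k[X] R]
  [IsScalarTower k[X] R M] [IsIntegralClosure R k[X] M] [Module.Finite k[X] R]

include O in
/-- The element `Q θ` has odd valuation. -/
theorem odd_top (hEXQ : S_EXQ) (hUR : S_UR) {a b : k[X]} {θ : L} (h6 : (6 : k) ≠ 0)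
    (hc : IsCub K a b θ) (hsq : Squarefree (dsc a b)) {γ : Ω} {g : k[X][X]} {δ : k[X]}
    (hG : Gen L γ g δ) {Q : k[X]} (hQ : Irreducible Q) (hb : Q ∣ b)
    (hns : ∀ z : k[X], ¬ Q ∣ z ^ 2 + a) (𝔓 : HeightOneSpectrum O') (h1 : Ov Q 𝔓)
    (hδ : ¬ Ov δ 𝔓) (h2 : 𝔓.valuation Ω (algebraMap L Ω θ) = 1) :
    ¬ Ev 𝔓 (algebraMap k[X] Ω Q * algebraMap L Ω θ) := by
  obtain ⟨𝔭, hv⟩ := (hUR k L Ω O O' γ g δ hG).1 𝔓 hδ
  obtain ⟨𝔓₁, 𝔮, h3, h4, h5, h7, h8, h9⟩ := hEXQ k K L O a b θ h6 hc hsq Q hQ hb hns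
  have e : algebraMap k[X] Ω Q * algebraMap L Ω θ = algebraMap L Ω (algebraMap k[X] L Q * θ) := by
    rw [map_mul, ← IsScalarTower.algebraMap_apply k[X] L Ω]
  rw [e, ev_down hv]
  rcases h9 𝔭 ((ov_down hv Q).1 h1) with rfl | rfl
  · rw [hv] at h2
    exact absurd h2 h5.ne
  · exact h8

/-- `- a` is not a square in the residue field. -/
theorem ns_top (hUR : S_UR) (hSPD : S_SPD) {a : k[X]} {γ : M} {g : k[X][X]} {δ : k[X]}
    (hG : Gen K γ g δ) {Q : k[X]} (hQ : Irreducible Q) (hsp : SplitMod Q g)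
    (hns : ∀ z : k[X], ¬ Q ∣ z ^ 2 + a) (w : HeightOneSpectrum R) (h1 : Ov Q w) (hδ : ¬ Ov δ w)
    (z : M) (hz : w.valuation M z ≤ 1) :
    ¬ w.valuation M (z ^ 2 + algebraMap k[X] M a) < 1 := by
  intro hlt
  obtain ⟨v, hv⟩ := (hUR k K M k[X] R γ g δ hG).1 w hδ
  -- a polynomial close to `z`
  obtain ⟨z₀, hz₀⟩ : ∃ z₀ : K, w.valuation M (z - algebraMap K M z₀) < 1 := by
    by_cases h0 : z = 0
    · exact ⟨0, by rw [h0, map_zero, sub_zero, map_zero]; exact zero_lt_one⟩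
    · obtain ⟨z₀, h⟩ := hSPD k K M R γ g δ hG Q hQ hsp w h1 hδ z h0
      exact ⟨z₀, lt_of_lt_of_le h hz⟩
  have hz0 : v.valuation K z₀ ≤ 1 := by
    rw [← hv]
    have e : algebraMap K M z₀ = z - (z - algebraMap K M z₀) := by ring
    rw [e]
    exact (Valuation.map_sub _ _ _).trans (max_le hz hz₀.le)
  obtain ⟨z₁, hz₁⟩ := poly_approx v hz0
  have h2 : w.valuation M (z - algebraMap k[X] M z₁) < 1 := by
    have e : z - algebraMap k[X] M z₁ = (z - algebraMap K M z₀) +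
        algebraMap K M (z₀ - algebraMap k[X] K z₁) := by
      rw [map_sub, ← IsScalarTower.algebraMap_apply k[X] K M]
      ring
    rw [e]
    refine lt_of_le_of_lt (Valuation.map_add _ _ _) (max_lt hz₀ ?_)
    rw [hv]
    exact hz₁
  have h3 : w.valuation M (algebraMap k[X] M (z₁ ^ 2 + a)) < 1 := by
    have e : algebraMap k[X] M (z₁ ^ 2 + a) = (z ^ 2 + algebraMap k[X] M a) -
        (z - algebraMap k[X] M z₁) * (z + algebraMap k[X] M z₁) := by
      rw [map_add, map_pow]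
      ring
    rw [e]
    refine lt_of_le_of_lt (Valuation.map_sub _ _ _) (max_lt hlt ?_)
    rw [map_mul]
    have h4 : w.valuation M (z + algebraMap k[X] M z₁) ≤ 1 :=
      (Valuation.map_add _ _ _).trans (max_le hz (val_le z₁ w))
    exact lt_of_le_of_lt (mul_le_mul' le_rfl h4) (by rwa [mul_one])
  have h5 : Ov (z₁ ^ 2 + a) w := (ov_val (L := M) _ w).2 h3
  -- hence `Q` divides it
  apply hns z₁
  by_contra hnd
  obtain ⟨u, t, hut⟩ := (hQ.coprime_iff_not_dvd).2 hnd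
  apply w.isPrime.ne_top
  rw [Ideal.eq_top_iff_one]
  have h6 : algebraMap k[X] R (u * Q + t * (z₁ ^ 2 + a)) ∈ w.asIdeal := by
    rw [map_add, map_mul, map_mul]
    exact Ideal.add_mem _ (Ideal.mul_mem_left _ _ h1) (Ideal.mul_mem_left _ _ h5)
  rwa [hut, map_one] at h6

/-- Primes dividing `δ` are in `T`. -/
theorem ov_delta {O : Type} [CommRing O] [IsDedekindDomain O] [Algebra k[X] O]
    [Algebra.IsIntegral k[X] O] {T : Finset k[X]} {δ : k[X]}
    (hδ : ∀ P : k[X], P.Monic → Irreducible P → P ∣ δ → P ∈ T) {𝔓 : HeightOneSpectrum O}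
    (h : Ov δ 𝔓) : ∃ P ∈ T, Ov P 𝔓 := by
  obtain ⟨P, hP1, hP2, hP3⟩ := exists_below (k := k) 𝔓
  refine ⟨P, hδ P hP1 hP2 ?_, hP3⟩
  by_contra hnd
  obtain ⟨u, t, hut⟩ := (hP2.coprime_iff_not_dvd).2 hnd
  apply 𝔓.isPrime.ne_top
  rw [Ideal.eq_top_iff_one]
  have h6 : algebraMap k[X] O (u * P + t * δ) ∈ 𝔓.asIdeal := by
    rw [map_add, map_mul, map_mul]
    exact Ideal.add_mem _ (Ideal.mul_mem_left _ _ hP3) (Ideal.mul_mem_left _ _ h)
  rwa [hut, map_one] at h6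

theorem not_ov_delta {O : Type} [CommRing O] [IsDedekindDomain O] [Algebra k[X] O]
    [Algebra.IsIntegral k[X] O] {S T : Finset k[X]} {s : k[X] → k[X]} {δ : k[X]}
    (hδ : ∀ P : k[X], P.Monic → Irreducible P → P ∣ δ → P ∈ T) (hS : GoodS S s)
    (hT : ∀ P ∈ T, P.Monic ∧ Irreducible P) (hdis : Disjoint S T) {Q : k[X]} (hQ : Q ∈ S)
    {𝔓 : HeightOneSpectrum O} (h : Ov Q 𝔓) : ¬ Ov δ 𝔓 := by
  intro h'
  obtain ⟨P, hP, hP'⟩ := ov_delta hδ h'
  have : Q = P := below_unique (hS Q hQ).1 (hS Q hQ).2.1 (hT P hP).1 (hT P hP).2 h hP'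
  exact Finset.disjoint_left.1 hdis hQ (this ▸ hP)

include O in
theorem cnd_top (hEXQ : S_EXQ) (hUR : S_UR) (hSPD : S_SPD) (hLIE : S_LIE) (hLOC1M : S_LOC1M)
    (hLOC2M : S_LOC2M) {a b : k[X]} {θ : L} {N : ℕ} {a₀ b₀ : k} {S J T : Finset k[X]}
    {s : k[X] → k[X]} (h6 : (6 : k) ≠ 0) (hc : IsCub K a b θ) (hS : GoodS S s)
    (hF : Fam N a₀ b₀ S s a b) {γ : M} {g : k[X][X]} {δ : k[X]} (hG : Gen K γ g δ)
    (hG' : Gen L (algebraMap M Ω γ) g δ) (hsp : ∀ Q ∈ S, SplitMod Q g)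
    (hT : ∀ P ∈ T, P.Monic ∧ Irreducible P)
    (hδ : ∀ P : k[X], P.Monic → Irreducible P → P ∣ δ → P ∈ T) (hdis : Disjoint S T)
    (hJ : J ⊆ S) {h : M[X]}
    (hloc : ∀ w : HeightOneSpectrum R, PLoc (w.adicCompletion M)
      (algebraMap k[X] M (a * (∏ Q ∈ J, Q) ^ 2)) (algebraMap k[X] M (b * (∏ Q ∈ J, Q) ^ 3)) h)
    (h0 : aeval (algebraMap k[X] Ω (∏ Q ∈ J, Q) * algebraMap L Ω θ) h ≠ 0) :
    Cnd O' J T (algebraMap L Ω θ) (aeval (algebraMap k[X] Ω (∏ Q ∈ J, Q) * algebraMap L Ω θ) h)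
    := by
  haveI : Algebra.IsIntegral k[X] R := IsIntegralClosure.isIntegral_algebra k[X] M
  haveI : Algebra.IsIntegral k[X] O' := IsIntegralClosure.isIntegral_algebra k[X] Ω
  have hroot : (algebraMap L Ω θ) ^ 3 + algebraMap M Ω (algebraMap k[X] M a) * algebraMap L Ω θ +
      algebraMap M Ω (algebraMap k[X] M b) = 0 := by
    have h1 := congrArg (algebraMap L Ω) hc.root
    rw [map_zero, map_add, map_add, map_mul, map_pow, ← IsScalarTower.algebraMap_apply k[X] L Ω,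
      ← IsScalarTower.algebraMap_apply k[X] L Ω] at h1
    rw [← IsScalarTower.algebraMap_apply k[X] M Ω, ← IsScalarTower.algebraMap_apply k[X] M Ω]
    exact h1
  -- at the primes in `J`
  have key : ∀ Q ∈ J, ∀ 𝔓 : HeightOneSpectrum O', Ov Q 𝔓 →
      (𝔓.valuation Ω (algebraMap L Ω θ) = 1 → U0 𝔓 (algebraMap k[X] Ω Q * algebraMap L Ω θ)
        (aeval (algebraMap k[X] Ω (∏ Q ∈ J, Q) * algebraMap L Ω θ) h)) ∧
      (𝔓.valuation Ω (algebraMap L Ω θ) < 1 →
        Ev 𝔓 (aeval (algebraMap k[X] Ω (∏ Q ∈ J, Q) * algebraMap L Ω θ) h)) := by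
    intro Q hQ 𝔓 h𝔓
    have hQS := hJ hQ
    obtain ⟨w, hw, hO⟩ := hLIE k M Ω R O' 𝔓
    have hQw : Ov Q w := (hO Q).2 h𝔓
    have hδw : ¬ Ov δ w := not_ov_delta hδ hS hT hdis hQS hQw
    have hδ𝔓 : ¬ Ov δ 𝔓 := fun h => hδw ((hO δ).2 h)
    obtain ⟨v, hv⟩ := (hUR k K M k[X] R γ g δ hG).1 w hδw
    haveI : Finite (R ⧸ w.asIdeal) := Pool.Agent.N539.PP.finite_residue (hS Q hQS).2.1 hQw
    have hprod : (∏ P ∈ J, P) = Q * ∏ P ∈ J.erase Q, P := (Finset.mul_prod_erase J id hQ).symm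
    have hϖ : w.valuation M (algebraMap k[X] M Q) = WithZero.exp (-1 : ℤ) := by
      refine le_antisymm (val_le_exp w ?_ ((ov_val Q w).1 hQw)) ?_
      · rw [IsScalarTower.algebraMap_apply k[X] K M]
        rw [Ne, map_eq_zero, IsFractionRing.to_map_eq_zero_iff]
        exact (hS Q hQS).2.1.ne_zero
      · rw [IsScalarTower.algebraMap_apply k[X] K M, hv]
        exact val_sqfree (hS Q hQS).2.1.squarefree v
    have hD' : w.valuation M (algebraMap k[X] M (∏ P ∈ J.erase Q, P)) = 1 := by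
      refine val_eq_of _ w fun h => ?_
      obtain ⟨P, hP, hP'⟩ := ov_prod h
      have hPS := hJ (Finset.mem_of_mem_erase hP)
      exact Finset.ne_of_mem_erase hP
        (below_unique (hS P hPS).1 (hS P hPS).2.1 (hS Q hQS).1 (hS Q hQS).2.1 hP' hQw)
    have hb1 : w.valuation M (algebraMap k[X] M b) < 1 := by
      rw [← ov_val]
      obtain ⟨c, hc⟩ := hF.rb Q hQS
      unfold Ov at hQw ⊢
      rw [hc, map_mul]
      exact Ideal.mul_mem_right _ _ hQw
    have hns := fun z hz => ns_top R hUR hSPD (a := a) hG (hS Q hQS).2.1 (hsp Q hQS)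
      (fam_ns hS hF hQS) w hQw hδw z hz
    have e1 : algebraMap k[X] M (a * (∏ Q ∈ J, Q) ^ 2) = algebraMap k[X] M a *
        (algebraMap k[X] M Q * algebraMap k[X] M (∏ P ∈ J.erase Q, P)) ^ 2 := by
      rw [hprod]
      simp only [map_mul, map_pow]
    have e2 : algebraMap k[X] M (b * (∏ Q ∈ J, Q) ^ 3) = algebraMap k[X] M b *
        (algebraMap k[X] M Q * algebraMap k[X] M (∏ P ∈ J.erase Q, P)) ^ 3 := by
      rw [hprod]
      simp only [map_mul, map_pow]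
    have e3 : algebraMap M Ω (algebraMap k[X] M Q * algebraMap k[X] M (∏ P ∈ J.erase Q, P)) =
        algebraMap k[X] Ω (∏ P ∈ J, P) := by
      rw [hprod, ← map_mul, ← IsScalarTower.algebraMap_apply k[X] M Ω]
    have hl := hloc w
    rw [e1, e2] at hl
    have h2 := hLOC2M M Ω R O' w 𝔓 hw (algebraMap k[X] M a) (algebraMap k[X] M b)
      (algebraMap k[X] M Q) (algebraMap k[X] M (∏ P ∈ J.erase Q, P)) (algebraMap L Ω θ) h hroot
      (val_six h6 w) (val_le a w) hb1 hϖ hD' hns hl (by rw [e3]; exact h0)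
    rw [e3, ← IsScalarTower.algebraMap_apply k[X] M Ω] at h2
    refine ⟨fun h3 => h2.1 h3 ?_, h2.2⟩
    exact odd_top O O' hEXQ hUR h6 hc hF.sq hG' (hS Q hQS).2.1 (hF.rb Q hQS) (fam_ns hS hF hQS) 𝔓
      h𝔓 hδ𝔓 h3
  refine ⟨fun 𝔓 h1 h2 => ?_, fun Q hQ 𝔓 h1 h2 => (key Q hQ 𝔓 h1).1 h2,
    fun Q hQ 𝔓 h1 h2 => (key Q hQ 𝔓 h1).2 h2⟩
  obtain ⟨w, hw, hO⟩ := hLIE k M Ω R O' 𝔓
  have hδw : ¬ Ov δ w := by
    intro h
    obtain ⟨P, hP, hP'⟩ := ov_delta hδ h
    exact h1 P hP ((hO P).1 hP')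
  obtain ⟨v, hv⟩ := (hUR k K M k[X] R γ g δ hG).1 w hδw
  have hD : w.valuation M (algebraMap k[X] M (∏ Q ∈ J, Q)) = 1 := by
    refine val_eq_of _ w fun h => ?_
    obtain ⟨Q, hQ, h'⟩ := ov_prod h
    exact h2 Q hQ ((hO Q).1 h')
  have hdisc : WithZero.exp (-1 : ℤ) ≤ w.valuation M (4 * (algebraMap k[X] M a) ^ 3 +
      27 * (algebraMap k[X] M b) ^ 2) := by
    have e : 4 * (algebraMap k[X] M a) ^ 3 + 27 * (algebraMap k[X] M b) ^ 2 =
        algebraMap K M (algebraMap k[X] K (dsc a b)) := by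
      rw [← IsScalarTower.algebraMap_apply k[X] K M]
      simp only [dsc, map_mul, map_add, map_pow, map_ofNat]
    rw [e, hv]
    exact val_sqfree hF.sq v
  have e3 : algebraMap M Ω (algebraMap k[X] M (∏ P ∈ J, P)) = algebraMap k[X] Ω (∏ P ∈ J, P) :=
    (IsScalarTower.algebraMap_apply k[X] M Ω _).symm
  have hl := hloc w
  rw [map_mul, map_mul, map_pow, map_pow] at hl
  have h3 := hLOC1M M Ω R O' w 𝔓 hw (algebraMap k[X] M a) (algebraMap k[X] M b)
    (algebraMap k[X] M (∏ P ∈ J, P)) (algebraMap L Ω θ) h hroot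
    (val_six h6 w) (val_le a w) (val_le b w) hD hdisc hl (by rw [e3]; exact h0)
  rw [e3] at h3
  exact h3

end top

end Pool.Agent.N874.PM
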