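import Pool.Agent.N874.PM.Cnt
import Pool.Agent.N874.PP.Final
import Pool.Agent.N75.PM.Loc1
import Pool.Agent.N849.PM.Loc2
import Pool.Agent.N803.PM.QS
import Pool.Agent.N692.PM.Tow
import Pool.Agent.N603.PM.UR
import Pool.Agent.N87.PM.FamT
import Pool.Agent.N169.PM.SPD
import Pool.Agent.N169.PM.GEN
import Pool.Agent.N426.PM.GLR
import Pool.Agent.N650.PM.GFR
import Pool.Agent.N814.PM.P3
import Pool.Agent.N803.PM.TCH
import Pool.Agent.N55.PM.SigLie

/-!
# A positive proportion over a Galois 2-extension: the parts together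

Project PM (helper874).
-/

set_option autoImplicit false
set_option linter.all false

open Polynomial IsDedekindDomain WeierstrassCurve WeierstrassCurve.Affine
open Pool.Agent.TH115.GD
open Pool.Agent.N874.PP
open scoped Classical IntermediateField

namespace Pool.Agent.N874.PM

theorem parts : Parts := by
  have hINT : S_INT := N833.PP.int
  have hEXQ : S_EXQ := N862.PP.exq hINT
  have hGP1 : S_GP1 := N630.PP.gp1
  have hGP2 : S_GP2 := N630.PP.gp2
  have hGP3 : S_GP3 := N630.PP.gp3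
  have hGP4 : S_GP4 := N630.PP.gp4
  have hREC : S_REC := N141.PP.rec N368.PP.hp N352.PP.tame N26.PP.t_diag (N765.PP.unim hINT)
    (N765.PP.ram hINT hEXQ) hEXQ
  have hLB : S_LB := N457.PP.lb hINT N277.PP.red_wt N530.PP.wtm N530.PP.nw N624.PP.nrm N279.PP.chi
  exact
    { cls := N539.PP.cls
      exq := hEXQ
      ns := N862.PP.ns hINT
      lin := N498.PP.lin
      recp := hREC
      sd := N169.PP.sd hINT
      ttv := N134.PP.ttv hINT
      lb := hLB
      gb := N187.PP.gb hGP3 hGP4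
      gn := N187.PP.gn hGP3 hGP4
      gt := N187.PP.gt hGP3 hGP4
      glr := N426.PM.glr hGP1 hGP2 hGP3 hGP4
      ur := N603.PM.UR.ur
      spd := N169.PM.spd
      sig := N55.PM.sig
      p3 := N814.PM.p3 hINT
      tow := N692.PMTOW.tow N803.PM.qs
      lie := N55.PM.lie
      loc1 := N75.PM.loc1m
      loc2 := N849.PM.loc2m }

theorem bad : S_BAD := N152.PP.bad (N160.PP.box N711.PP.cq) N160.PP.box0 N530.PP.orb

theorem final0 (hSPL : S_SPL) (hFINM : S_FINM)
    (k : Type) [Field k] [Finite k] (h6 : (6 : k) ≠ 0) (K M : Type) [Field K] [Algebra k[X] K]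
    [IsFractionRing k[X] K] [Field M] [Algebra K M] [Algebra k[X] M] [IsScalarTower k[X] K M]
    [FiniteDimensional K M] [IsGalois K M] (R : Type) [CommRing R] [IsDedekindDomain R]
    [Algebra R M] [IsFractionRing R M] [Algebra k[X] R] [IsScalarTower k[X] R M]
    [IsIntegralClosure R k[X] M] {n : ℕ} (hM : Module.finrank K M = 2 ^ n) :
    ∃ c : ℝ, 0 < c ∧ ∃ N₀ : ℕ, ∀ N ≥ N₀, c * (Nat.card k : ℝ) ^ (10 * N) ≤
        ({p : k[X] × k[X] | Crv N p.1 p.2 ∧ GoodM (M := M) R p}.ncard : ℝ) :=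
  mainM parts N999.PP.irk N87.PM.famt bad N498.PP.irr N803.PM.tch N169.PM.gen hSPL N650.PM.gfr hFINM
    k h6 K M R hM

end Pool.Agent.N874.PM

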