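import Pool.Agent.N874.PM.Final0
import Pool.Agent.N2.PM.Spl
import Pool.Agent.N803.PM.FinM

/-!
# A positive proportion over a Galois 2-extension: the theorem

Project PM (helper874).
-/

set_option autoImplicit false
set_option linter.all false

open Polynomial IsDedekindDomain WeierstrassCurve WeierstrassCurve.Affine
open Pool.Agent.TH115.GD
open Pool.Agent.N874.PP
open scoped Classical IntermediateField

namespace Pool.Agent.N874.PM

theorem final (k : Type) [Field k] [Finite k] (h6 : (6 : k) ≠ 0) (K M : Type) [Field K]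
    [Algebra k[X] K] [IsFractionRing k[X] K] [Field M] [Algebra K M] [Algebra k[X] M]
    [IsScalarTower k[X] K M] [FiniteDimensional K M] [IsGalois K M] (R : Type) [CommRing R]
    [IsDedekindDomain R] [Algebra R M] [IsFractionRing R M] [Algebra k[X] R]
    [IsScalarTower k[X] R M] [IsIntegralClosure R k[X] M] {n : ℕ}
    (hM : Module.finrank K M = 2 ^ n) :
    ∃ c : ℝ, 0 < c ∧ ∃ N₀ : ℕ, ∀ N ≥ N₀, c * (Nat.card k : ℝ) ^ (10 * N) ≤
        ({p : k[X] × k[X] | Crv N p.1 p.2 ∧ GoodM (M := M) R p}.ncard : ℝ) :=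
  final0 N2.PM.spl N803.PM.finm k h6 K M R hM

end Pool.Agent.N874.PM
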