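import Pool.Agent.N874.PM.Core
import Pool.Agent.N874.PM.Stm

/-!
# Conditions over the extension, descent

Project PM (helper874).
-/

set_option autoImplicit false
set_option linter.all false

open Polynomial IsDedekindDomain WeierstrassCurve WeierstrassCurve.Affine
open Pool.Agent.TH115.GD
open Pool.Agent.N874.PP
open scoped Classical IntermediateField

namespace Pool.Agent.N874.PM

section prel

variable {k L Ω O O' : Type} [Field k] [Field L] [Field Ω] [Algebra L Ω] [Algebra k[X] L]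
  [Algebra k[X] Ω] [IsScalarTower k[X] L Ω]
  [CommRing O] [IsDedekindDomain O] [Algebra O L] [IsFractionRing O L] [Algebra k[X] O]
  [IsScalarTower k[X] O L]
  [CommRing O'] [IsDedekindDomain O'] [Algebra O' Ω] [IsFractionRing O' Ω] [Algebra k[X] O']
  [IsScalarTower k[X] O' Ω]

theorem ov_val (P : k[X]) (𝔓 : HeightOneSpectrum O) :
    Ov P 𝔓 ↔ 𝔓.valuation L (algebraMap k[X] L P) < 1 := by
  rw [IsScalarTower.algebraMap_apply k[X] O L, HeightOneSpectrum.valuation_lt_one_iff_mem]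
  rfl

theorem val_le (P : k[X]) (𝔓 : HeightOneSpectrum O) :
    𝔓.valuation L (algebraMap k[X] L P) ≤ 1 := by
  rw [IsScalarTower.algebraMap_apply k[X] O L]
  exact 𝔓.valuation_le_one _

theorem val_eq_of (P : k[X]) (𝔓 : HeightOneSpectrum O) (h : ¬ Ov P 𝔓) :
    𝔓.valuation L (algebraMap k[X] L P) = 1 := by
  refine le_antisymm (val_le P 𝔓) ?_
  rw [← not_lt, ← ov_val]
  exact h

variable {𝔓 : HeightOneSpectrum O} {𝔓' : HeightOneSpectrum O'}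

theorem ov_down (hv : ∀ x : L, 𝔓'.valuation Ω (algebraMap L Ω x) = 𝔓.valuation L x) (P : k[X]) :
    Ov P 𝔓' ↔ Ov P 𝔓 := by
  rw [ov_val (L := Ω), ov_val (L := L), ← hv, ← IsScalarTower.algebraMap_apply k[X] L Ω]

theorem ev_down (hv : ∀ x : L, 𝔓'.valuation Ω (algebraMap L Ω x) = 𝔓.valuation L x) (x : L) :
    Ev 𝔓' (algebraMap L Ω x) ↔ Ev 𝔓 x := by
  constructor
  · rintro ⟨y, hy⟩
    obtain ⟨z, hz⟩ := 𝔓.valuation_surjective L (𝔓'.valuation Ω y)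
    exact ⟨z, by rw [hz, ← hy, hv]⟩
  · rintro ⟨y, hy⟩
    exact ⟨algebraMap L Ω y, by rw [hv, hv, hy]⟩

theorem sq_down (hv : ∀ x : L, 𝔓'.valuation Ω (algebraMap L Ω x) = 𝔓.valuation L x)
    (hd : ∀ s : Ω, s ≠ 0 → ∃ s₀ : L, 𝔓'.valuation Ω (s - algebraMap L Ω s₀) < 𝔓'.valuation Ω s)
    {x : L} (h : Sq1 𝔓' (algebraMap L Ω x)) : Sq1 𝔓 x := by
  obtain ⟨s, hs⟩ := h
  have h1 : 𝔓'.valuation Ω (s ^ 2) = 𝔓'.valuation Ω (algebraMap L Ω x) := by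
    have := Valuation.map_sub_eq_of_lt_left (𝔓'.valuation Ω) (x := algebraMap L Ω x)
      (y := algebraMap L Ω x - s ^ 2) hs
    rwa [sub_sub_cancel] at this
  have hx0 : 𝔓'.valuation Ω (algebraMap L Ω x) ≠ 0 := by
    intro h0
    rw [h0] at hs
    exact absurd hs (by simp)
  have hs0 : s ≠ 0 := by
    rintro rfl
    rw [zero_pow two_ne_zero, map_zero] at h1
    exact hx0 h1.symm
  obtain ⟨s₀, hs₀⟩ := hd s hs0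
  refine ⟨s₀, ?_⟩
  rw [← hv, ← hv, map_sub, map_pow]
  have e : algebraMap L Ω x - algebraMap L Ω s₀ ^ 2 = (algebraMap L Ω x - s ^ 2) +
      (s - algebraMap L Ω s₀) * (s + algebraMap L Ω s₀) := by ring
  rw [e]
  refine lt_of_le_of_lt (Valuation.map_add _ _ _) (max_lt hs ?_)
  have h2 : 𝔓'.valuation Ω (s + algebraMap L Ω s₀) ≤ 𝔓'.valuation Ω s := by
    have e2 : s + algebraMap L Ω s₀ = s + s - (s - algebraMap L Ω s₀) := by ring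
    rw [e2]
    refine (Valuation.map_sub _ _ _).trans (max_le ?_ hs₀.le)
    exact (Valuation.map_add _ _ _).trans (max_le le_rfl le_rfl)
  have hpos : 0 < 𝔓'.valuation Ω s := by
    rw [zero_lt_iff]
    exact (Valuation.ne_zero_iff _).2 hs0
  rw [map_mul, ← h1, map_pow, pow_two]
  calc _ ≤ 𝔓'.valuation Ω (s - algebraMap L Ω s₀) * 𝔓'.valuation Ω s := mul_le_mul' le_rfl h2
    _ < 𝔓'.valuation Ω s * 𝔓'.valuation Ω s := mul_lt_mul_of_pos_right hs₀ hpos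

end prel

section cond

variable {k Ω : Type} [Field k] [Field Ω] [Algebra k[X] Ω] (O' : Type)
  [CommRing O'] [IsDedekindDomain O'] [Algebra O' Ω] [IsFractionRing O' Ω] [Algebra k[X] O']
  [IsScalarTower k[X] O' Ω]

/-- The conditions. -/
structure Cnd (J T : Finset k[X]) (θ x : Ω) : Prop where
  ev : ∀ 𝔓 : HeightOneSpectrum O', (∀ P ∈ T, ¬ Ov P 𝔓) → (∀ Q ∈ J, ¬ Ov Q 𝔓) → Ev 𝔓 x
  u0 : ∀ Q ∈ J, ∀ 𝔓 : HeightOneSpectrum O', Ov Q 𝔓 → 𝔓.valuation Ω θ = 1 →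
    U0 𝔓 (algebraMap k[X] Ω Q * θ) x
  eq : ∀ Q ∈ J, ∀ 𝔓 : HeightOneSpectrum O', Ov Q 𝔓 → 𝔓.valuation Ω θ < 1 → Ev 𝔓 x

variable {O'} {J T : Finset k[X]} {θ : Ω}

theorem ev_sq (𝔓 : HeightOneSpectrum O') (x : Ω) : Ev 𝔓 (x ^ 2) := ⟨x, map_pow _ _ _⟩

theorem ev_mul {𝔓 : HeightOneSpectrum O'} {x y : Ω} (hx : Ev 𝔓 x) (hy : Ev 𝔓 y) :
    Ev 𝔓 (x * y) := by
  obtain ⟨u, hu⟩ := hx
  obtain ⟨v, hv⟩ := hy
  exact ⟨u * v, by rw [map_mul, map_mul, hu, hv, mul_pow]⟩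

theorem cnd_sq {x : Ω} (hx : x ≠ 0) : Cnd O' J T θ (x ^ 2) where
  ev 𝔓 _ _ := ev_sq 𝔓 x
  eq Q _ 𝔓 _ _ := ev_sq 𝔓 x
  u0 Q _ 𝔓 _ _ := by
    refine ⟨fun _ => ⟨x, ?_⟩, fun h => absurd (ev_sq 𝔓 x) h⟩
    rw [sub_self, map_zero, zero_lt_iff]
    exact (Valuation.ne_zero_iff _).2 (pow_ne_zero _ hx)

theorem cnd_mul [Finite k] [Algebra.IsIntegral k[X] O'] [Module.Finite k[X] O'] (hCLS : S_CLS)
    (h2 : (2 : k) ≠ 0) (hJ : ∀ Q ∈ J, Irreducible Q)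
    (hϖ : ∀ Q ∈ J, ∀ 𝔓 : HeightOneSpectrum O', Ov Q 𝔓 → 𝔓.valuation Ω θ = 1 →
      ¬ Ev 𝔓 (algebraMap k[X] Ω Q * θ)) {x y : Ω} (hx : x ≠ 0) (hy : y ≠ 0)
    (h : Cnd O' J T θ x) (h' : Cnd O' J T θ y) : Cnd O' J T θ (x * y) where
  ev 𝔓 h1 h2 := ev_mul (h.ev 𝔓 h1 h2) (h'.ev 𝔓 h1 h2)
  eq Q hQ 𝔓 h1 h2 := ev_mul (h.eq Q hQ 𝔓 h1 h2) (h'.eq Q hQ 𝔓 h1 h2)
  u0 Q hQ 𝔓 h1 h3 := by
    have h4 := hϖ Q hQ 𝔓 h1 h3
    have h5 : algebraMap k[X] Ω Q * θ ≠ 0 := by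
      intro h0
      apply h4
      rw [h0]
      exact ⟨0, by simp⟩
    exact ((hCLS k Ω O' Q 𝔓 _ h2 (hJ Q hQ) h1 h5 h4 x y hx hy).2).2
      ⟨fun _ => h'.u0 Q hQ 𝔓 h1 h3, fun _ => h.u0 Q hQ 𝔓 h1 h3⟩

theorem cnd_sig [IsIntegralClosure O' k[X] Ω] (hSIG : S_SIG) {L : Type} [Field L] [Algebra L Ω]
    [Algebra k[X] L] [IsScalarTower k[X] L Ω] {θ₀ : L} (hθ : θ = algebraMap L Ω θ₀)
    (σ : Ω ≃ₐ[L] Ω) {x : Ω} (h : Cnd O' J T θ x) : Cnd O' J T θ (σ x) := by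
  have hf : ∀ y : L, σ (algebraMap L Ω y) = algebraMap L Ω y := fun y => σ.commutes y
  have hp : ∀ P : k[X], σ (algebraMap k[X] Ω P) = algebraMap k[X] Ω P := fun P => by
    rw [IsScalarTower.algebraMap_apply k[X] L Ω, hf]
  have key := hSIG k Ω O' (σ.restrictScalars k[X])
  have hev : ∀ (𝔓 𝔓' : HeightOneSpectrum O'), (∀ y : Ω, 𝔓'.valuation Ω y = 𝔓.valuation Ω (σ y)) →
      ∀ y : Ω, Ev 𝔓' y ↔ Ev 𝔓 (σ y) := by
    intro 𝔓 𝔓' hv y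
    constructor
    · rintro ⟨z, hz⟩
      exact ⟨σ z, by rw [← hv, ← hv, hz]⟩
    · rintro ⟨z, hz⟩
      refine ⟨σ.symm z, ?_⟩
      rw [hv, hv, σ.apply_symm_apply, hz]
  have hsq : ∀ (𝔓 𝔓' : HeightOneSpectrum O'), (∀ y : Ω, 𝔓'.valuation Ω y = 𝔓.valuation Ω (σ y)) →
      ∀ y : Ω, Sq1 𝔓' y → Sq1 𝔓 (σ y) := by
    rintro 𝔓 𝔓' hv y ⟨z, hz⟩
    refine ⟨σ z, ?_⟩
    rw [hv, hv, map_sub, map_pow] at hz
    exact hz
  refine ⟨fun 𝔓 h1 h2 => ?_, fun Q hQ 𝔓 h1 h2 => ?_, fun Q hQ 𝔓 h1 h2 => ?_⟩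
  · obtain ⟨𝔓', hv, hO⟩ := key 𝔓
    exact (hev 𝔓 𝔓' hv x).1 (h.ev 𝔓' (fun P hP hc => h1 P hP ((hO P).1 hc))
      (fun Q hQ hc => h2 Q hQ ((hO Q).1 hc)))
  · obtain ⟨𝔓', hv, hO⟩ := key 𝔓
    have hv' : ∀ y : Ω, 𝔓'.valuation Ω y = 𝔓.valuation Ω (σ y) := hv
    have h3 := h.u0 Q hQ 𝔓' ((hO Q).2 h1) (by rw [hv', hθ, hf, ← hθ]; exact h2)
    refine ⟨fun h4 => hsq 𝔓 𝔓' hv' x (h3.1 ((hev 𝔓 𝔓' hv' x).2 h4)), fun h4 => ?_⟩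
    have h5 := hsq 𝔓 𝔓' hv' _ (h3.2 fun h6 => h4 ((hev 𝔓 𝔓' hv' x).1 h6))
    rw [map_mul, map_mul, hp, hθ, hf, ← hθ] at h5
    exact h5
  · obtain ⟨𝔓', hv, hO⟩ := key 𝔓
    have hv' : ∀ y : Ω, 𝔓'.valuation Ω y = 𝔓.valuation Ω (σ y) := hv
    exact (hev 𝔓 𝔓' hv' x).1 (h.eq Q hQ 𝔓' ((hO Q).2 h1) (by rw [hv', hθ, hf, ← hθ]; exact h2))

end cond

end Pool.Agent.N874.PM
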