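import Pool.Agent.N874.PM.Big

/-!
# Conditions over the extension: the bottom

Project PM (helper874).
-/

set_option autoImplicit false
set_option linter.all false

open Polynomial IsDedekindDomain WeierstrassCurve WeierstrassCurve.Affine
open Pool.Agent.TH115.GD
open Pool.Agent.N874.PP
open scoped Classical IntermediateField

namespace Pool.Agent.N874.PM

section base

variable {k K L Ω : Type} (O O' : Type) [Field k] [Field K] [Field L] [Field Ω] [Algebra K L]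
  [Algebra L Ω] [Algebra k[X] L]
  [Algebra k[X] Ω] [IsScalarTower k[X] L Ω]
  [CommRing O] [IsDedekindDomain O] [Algebra O L] [IsFractionRing O L] [Algebra k[X] O]
  [IsScalarTower k[X] O L]
  [CommRing O'] [IsDedekindDomain O'] [Algebra O' Ω] [IsFractionRing O' Ω] [Algebra k[X] O']
  [IsScalarTower k[X] O' Ω]

theorem base_sq {θ : L} {J T : Finset k[X]} {δ : k[X]}
    (hsel : ∀ α : L, α ≠ 0 → IsSquare (Algebra.norm K α) →
      (∀ 𝔓 : HeightOneSpectrum O, (∀ Q ∈ J, ¬ Ov Q 𝔓) → Ev 𝔓 α) →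
      (∀ Q ∈ J, ∀ 𝔓 : HeightOneSpectrum O, Ov Q 𝔓 → 𝔓.valuation L θ = 1 →
        U0 𝔓 (algebraMap k[X] L Q * θ) α) →
      (∀ Q ∈ J, ∀ 𝔓 : HeightOneSpectrum O, Ov Q 𝔓 → 𝔓.valuation L θ < 1 → Ev 𝔓 α) →
      IsSquare α)
    (hUR : ∀ 𝔓 : HeightOneSpectrum O, ¬ Ov δ 𝔓 → ∃ 𝔓' : HeightOneSpectrum O',
      ∀ x : L, 𝔓'.valuation Ω (algebraMap L Ω x) = 𝔓.valuation L x)
    (hSP : ∀ Q ∈ J, ∀ 𝔓' : HeightOneSpectrum O', Ov Q 𝔓' → ¬ Ov δ 𝔓' → ∀ s : Ω, s ≠ 0 →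
      ∃ s₀ : L, 𝔓'.valuation Ω (s - algebraMap L Ω s₀) < 𝔓'.valuation Ω s)
    (hT : ∀ P ∈ T, ∀ x : L, x ≠ 0 → IsSquare (Algebra.norm K x) →
      ∀ 𝔓 : HeightOneSpectrum O, Ov P 𝔓 → Ev 𝔓 x)
    (hδ : ∀ 𝔓 : HeightOneSpectrum O, Ov δ 𝔓 → ∃ P ∈ T, Ov P 𝔓)
    (hJδ : ∀ Q ∈ J, ∀ 𝔓 : HeightOneSpectrum O, Ov Q 𝔓 → ¬ Ov δ 𝔓)
    {x : L} (hx : x ≠ 0) (hC : Cnd O' J T (algebraMap L Ω θ) (algebraMap L Ω x))
    (hN : IsSquare (Algebra.norm K x)) : IsSquare x := by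
  refine hsel x hx hN (fun 𝔓 h𝔓 => ?_) (fun Q hQ 𝔓 h1 h2 => ?_) (fun Q hQ 𝔓 h1 h2 => ?_)
  · by_cases hP : ∃ P ∈ T, Ov P 𝔓
    · obtain ⟨P, hPT, hP𝔓⟩ := hP
      exact hT P hPT x hx hN 𝔓 hP𝔓
    · obtain ⟨𝔓', hv⟩ := hUR 𝔓 fun h => hP (hδ 𝔓 h)
      rw [← ev_down hv]
      exact hC.ev 𝔓' (fun P hPT h => hP ⟨P, hPT, (ov_down hv P).1 h⟩)
        (fun Q hQ h => h𝔓 Q hQ ((ov_down hv Q).1 h))
  · obtain ⟨𝔓', hv⟩ := hUR 𝔓 (hJδ Q hQ 𝔓 h1)
    have hQ' : Ov Q 𝔓' := (ov_down hv Q).2 h1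
    have hd := hSP Q hQ 𝔓' hQ' (fun h => hJδ Q hQ 𝔓 h1 ((ov_down hv δ).1 h))
    have h3 := hC.u0 Q hQ 𝔓' hQ' (by rw [hv]; exact h2)
    refine ⟨fun h4 => sq_down hv hd (h3.1 ((ev_down hv x).2 h4)), fun h4 => ?_⟩
    have h5 := h3.2 fun h6 => h4 ((ev_down hv x).1 h6)
    have e : algebraMap L Ω x * (algebraMap k[X] Ω Q * algebraMap L Ω θ) =
        algebraMap L Ω (x * (algebraMap k[X] L Q * θ)) := by
      rw [map_mul, map_mul, ← IsScalarTower.algebraMap_apply k[X] L Ω]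
    rw [e] at h5
    exact sq_down hv hd h5
  · obtain ⟨𝔓', hv⟩ := hUR 𝔓 (hJδ Q hQ 𝔓 h1)
    rw [← ev_down hv]
    exact hC.eq Q hQ 𝔓' ((ov_down hv Q).2 h1) (by rw [hv]; exact h2)

end base

section vals

variable {k K : Type} [Field k] [Field K] [Algebra k[X] K] [IsFractionRing k[X] K]

/-- Squarefree polynomials have valuation at most one. -/
theorem val_sqfree {r : k[X]} (hr : Squarefree r) (v : HeightOneSpectrum k[X]) :
    WithZero.exp (-1 : ℤ) ≤ v.valuation K (algebraMap k[X] K r) := by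
  by_contra hlt
  rw [not_le] at hlt
  have hr0 : r ≠ 0 := hr.ne_zero
  have h0 : v.valuation K (algebraMap k[X] K r) ≠ 0 := by
    rw [Valuation.ne_zero_iff]
    rw [Ne, IsFractionRing.to_map_eq_zero_iff]
    exact hr0
  have h2 : v.valuation K (algebraMap k[X] K r) ≤ WithZero.exp (-((2 : ℕ) : ℤ)) := by
    rw [← WithZero.exp_log h0, WithZero.exp_lt_exp] at hlt
    rw [← WithZero.exp_log h0, WithZero.exp_le_exp]
    push_cast
    omega
  rw [HeightOneSpectrum.valuation_of_algebraMap, HeightOneSpectrum.intValuation_le_pow_iff_dvd]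
    at h2
  obtain ⟨g, hg⟩ := (IsPrincipalIdealRing.principal v.asIdeal).principal
  have hg' : v.asIdeal = Ideal.span {g} := hg
  rw [hg', Ideal.span_singleton_pow, Ideal.dvd_span_singleton, Ideal.mem_span_singleton, sq] at h2
  have hu := hr g h2
  apply v.isPrime.ne_top
  rw [hg', Ideal.span_singleton_eq_top]
  exact hu

theorem val_le_exp {R M : Type} [CommRing R] [IsDedekindDomain R] [Field M] [Algebra R M]
    [IsFractionRing R M] (w : HeightOneSpectrum R) {x : M} (hx : x ≠ 0)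
    (h : w.valuation M x < 1) : w.valuation M x ≤ WithZero.exp (-1 : ℤ) := by
  have h0 : w.valuation M x ≠ 0 := (Valuation.ne_zero_iff _).2 hx
  rw [← WithZero.exp_log h0, ← WithZero.exp_zero, WithZero.exp_lt_exp] at h
  rw [← WithZero.exp_log h0, WithZero.exp_le_exp]
  omega

end vals

end Pool.Agent.N874.PM
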