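import Pool.Agent.N874.PM.Big3

/-!
# The 2-Selmer group over the extension

Project PM (helper874).
-/

set_option autoImplicit false
set_option linter.all false

open Polynomial IsDedekindDomain WeierstrassCurve WeierstrassCurve.Affine
open Pool.Agent.TH115.GD
open Pool.Agent.N874.PP
open scoped Classical IntermediateField

namespace Pool.Agent.N874.PM

/-- All the parts which are used in the theorem on the Selmer group. -/
structure Parts : Prop where
  cls : S_CLS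
  exq : S_EXQ
  ns : S_NS
  lin : S_LIN
  recp : S_REC
  sd : S_SD
  ttv : S_TTV
  lb : S_LB
  gb : S_GB
  gn : S_GN
  gt : S_GT
  glr : S_GLR
  ur : S_UR
  spd : S_SPD
  sig : S_SIG
  p3 : S_P3
  tow : S_TOW
  lie : S_LIE
  loc1 : S_LOC1M
  loc2 : S_LOC2M

section abs

variable {k K L M Ω : Type} (O O' R : Type) [Field k] [Finite k] [Field K] [Field L] [Field M]
  [Field Ω]
  [Algebra k[X] K] [IsFractionRing k[X] K]
  [Algebra K L] [Algebra k[X] L] [IsScalarTower k[X] K L]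
  [Algebra K M] [Algebra k[X] M] [IsScalarTower k[X] K M]
  [Algebra L Ω] [Algebra M Ω] [Algebra K Ω] [IsScalarTower K L Ω] [IsScalarTower K M Ω]
  [Algebra k[X] Ω] [IsScalarTower k[X] L Ω] [IsScalarTower k[X] M Ω]
  [CommRing O] [IsDedekindDomain O] [Algebra O L] [IsFractionRing O L] [Algebra k[X] O]
  [IsScalarTower k[X] O L] [IsIntegralClosure O k[X] L] [Module.Finite k[X] O]
  [CommRing O'] [IsDedekindDomain O'] [Algebra O' Ω] [IsFractionRing O' Ω] [Algebra k[X] O']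
  [IsScalarTower k[X] O' Ω] [IsIntegralClosure O' k[X] Ω] [Module.Finite k[X] O']
  [CommRing R] [IsDedekindDomain R] [Algebra R M] [IsFractionRing R M] [Algebra k[X] R]
  [IsScalarTower k[X] R M] [IsIntegralClosure R k[X] M] [Module.Finite k[X] R] [IsGalois K M]

include Ω O O' in
theorem selR_abs (H : Parts) {a b : k[X]} {θ : L} {N : ℕ} {a₀ b₀ : k} {S T : Finset k[X]}
    {s A B : k[X] → k[X]} (h6 : (6 : k) ≠ 0) (hc : IsCub K a b θ)
    (hirr : Irreducible (X ^ 3 + C a₀ * X + C b₀ : k[X])) (hS : GoodS S s)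
    (hF : FamT N a₀ b₀ S s T A B a b) (hnb : ¬ LBad N S s a b) (hT : GoodT T A B)
    {γ : M} {g : k[X][X]} {δ : k[X]} (hG : Gen K γ g δ)
    (hG' : Gen L (algebraMap M Ω γ) g δ) (hsp : ∀ Q ∈ S, SplitMod Q g)
    (hδ : ∀ P : k[X], P.Monic → Irreducible P → P ∣ δ → P ∈ T) (hdis : Disjoint S T)
    {n : ℕ} (hM : Module.finrank K M = 2 ^ n) (hΩ : Module.finrank M Ω = 3)
    (hirrM : ∀ D : k[X], D ≠ 0 → Irreducible (X ^ 3 + C (algebraMap k[X] M (a * D ^ 2)) * X +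
      C (algebraMap k[X] M (b * D ^ 3)) : M[X])) :
    ∃ J ⊆ S, SelR R (sW (algebraMap k[X] M (a * (∏ Q ∈ J, Q) ^ 2))
      (algebraMap k[X] M (b * (∏ Q ∈ J, Q) ^ 3))) := by
  haveI : Algebra.IsIntegral k[X] R := IsIntegralClosure.isIntegral_algebra k[X] M
  haveI : Algebra.IsIntegral k[X] O' := IsIntegralClosure.isIntegral_algebra k[X] Ω
  haveI : Algebra.IsIntegral k[X] O := IsIntegralClosure.isIntegral_algebra k[X] L
  have h2 : (2 : k) ≠ 0 := by
    intro h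
    apply h6
    have : (6 : k) = 2 * 3 := by norm_num
    rw [this, h, zero_mul]
  have inj : Function.Injective (algebraMap k[X] M) := by
    rw [IsScalarTower.algebraMap_eq k[X] K M]
    exact (algebraMap K M).injective.comp (IsFractionRing.injective k[X] K)
  have cst : ∀ c : k, c ≠ 0 → ∀ (F : Type) [Field F] [Algebra k[X] F],
      Function.Injective (algebraMap k[X] F) → algebraMap k[X] F (C c) ≠ 0 := by
    intro c hc F _ _ hF
    rw [Ne, map_eq_zero_iff _ hF, C_eq_zero]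
    exact hc
  have h6M : (6 : M) ≠ 0 := by
    have h := cst 6 h6 M inj
    have e : algebraMap k[X] M (C (6 : k)) = 6 := by
      rw [show (C (6 : k) : k[X]) = 6 from rfl, map_ofNat]
    rwa [e] at h
  have h2K : (2 : K) ≠ 0 := by
    have h := cst 2 h2 K (IsFractionRing.injective k[X] K)
    have e : algebraMap k[X] K (C (2 : k)) = 2 := by
      rw [show (C (2 : k) : k[X]) = 2 from rfl, map_ofNat]
    rwa [e] at h
  have hT' : ∀ P ∈ T, P.Monic ∧ Irreducible P := fun P hP => ⟨(hT P hP).1, (hT P hP).2.1⟩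
  obtain ⟨J, hJ, hsel⟩ := core2 (K := K) (L := L) O H.cls H.exq H.ns H.lin H.recp H.sd H.ttv H.lb h6
    hc hirr hS hF.fam hnb
  refine ⟨J, hJ, ?_⟩
  have hD0 : (∏ Q ∈ J, Q) ≠ 0 := by
    rw [Finset.prod_ne_zero_iff]
    exact fun Q hQ => (hS Q (hJ hQ)).2.1.ne_zero
  intro f hf h2f hloc
  have hirrD := hirrM _ hD0
  have hdisc : 4 * (algebraMap k[X] M (a * (∏ Q ∈ J, Q) ^ 2)) ^ 3 +
      27 * (algebraMap k[X] M (b * (∏ Q ∈ J, Q) ^ 3)) ^ 2 ≠ 0 := by
    have e : 4 * (algebraMap k[X] M (a * (∏ Q ∈ J, Q) ^ 2)) ^ 3 +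
      27 * (algebraMap k[X] M (b * (∏ Q ∈ J, Q) ^ 3)) ^ 2 =
        algebraMap k[X] M ((∏ Q ∈ J, Q) ^ 6 * dsc a b) := by
      simp only [dsc, map_mul, map_add, map_pow, map_ofNat]
      ring
    rw [e, Ne, map_eq_zero_iff _ inj]
    exact mul_ne_zero (pow_ne_zero _ hD0) hF.fam.sq.ne_zero
  obtain ⟨β, hβ⟩ := H.gb M _ _ h6M hdisc hirrD f hf h2f
  obtain ⟨h, hh, hn⟩ := H.gn M _ _ h6M hdisc hirrD f hf h2f β hβ
  have hRt : Rt (algebraMap k[X] M (a * (∏ Q ∈ J, Q) ^ 2))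
      (algebraMap k[X] M (b * (∏ Q ∈ J, Q) ^ 3))
      (algebraMap k[X] Ω (∏ Q ∈ J, Q) * algebraMap L Ω θ) := by
    unfold Rt
    rw [← IsScalarTower.algebraMap_apply k[X] M Ω, ← IsScalarTower.algebraMap_apply k[X] M Ω]
    have h1 := congrArg (algebraMap L Ω) hc.root
    rw [map_zero, map_add, map_add, map_mul, map_pow, ← IsScalarTower.algebraMap_apply k[X] L Ω,
      ← IsScalarTower.algebraMap_apply k[X] L Ω] at h1
    simp only [map_mul, map_pow]
    linear_combination (algebraMap k[X] Ω (∏ Q ∈ J, Q)) ^ 3 * h1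
  have hn2 := hn Ω _ hRt hΩ
  have hcnd := cnd_top O O' R H.exq H.ur H.spd H.lie H.loc1 H.loc2 h6 hc hS hF.fam hG hG' hsp hT' hδ
    hdis hJ (h := h)
    (fun w => H.glr M R _ _ h6M hdisc f hf h2f β h hβ hh w (val_two h6 w) (hloc w)) hn2.1
  have hsq := H.tow n K L M Ω h2K hM hc.rank hΩ
    (fun x => Cnd O' J T (algebraMap L Ω θ) x) (fun x hx => cnd_sq hx)
    (fun x y hx hy h h' => cnd_mul H.cls h2 (fun Q hQ => (hS Q (hJ hQ)).2.1)
      (fun Q hQ 𝔓 h1 h2 => odd_top O O' H.exq H.ur h6 hc hF.fam.sq hG' (hS Q (hJ hQ)).2.1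
        (hF.fam.rb Q (hJ hQ)) (fam_ns hS hF.fam (hJ hQ)) 𝔓 h1
        (not_ov_delta hδ hS hT' hdis (hJ hQ) h1) h2) hx hy h h')
    (fun σ x h => cnd_sig H.sig rfl σ h)
    (fun x hx hC hN => base_sq O O' hsel (H.ur k L Ω O O' _ g δ hG').2
      (fun Q hQ => H.spd k L Ω O' _ g δ hG' Q (hS Q (hJ hQ)).2.1 (hsp Q (hJ hQ)))
      (fun P hP => H.p3 k K L O a b θ h6 hc hF.fam.sq P (hT P hP).2.1 (fun z hz => (hT P hP).2.2 z
        (by
          have h3 := dvd_sub (dvd_sub hz (dvd_mul_of_dvd_left (hF.ta P hP) z)) (hF.tb P hP)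
          have e : z ^ 3 + a * z + b - (a - A P) * z - (b - B P) = z ^ 3 + A P * z + B P := by
            ring
          rwa [e] at h3)))
      (fun 𝔓 h => ov_delta hδ h)
      (fun Q hQ 𝔓 h => not_ov_delta hδ hS hT' hdis (hJ hQ) h) hx hC hN)
    _ hn2.1 hcnd hn2.2
  exact H.gt M _ _ h6M hdisc hirrD f hf h2f β h hβ hh _ _ hRt hΩ hsq

end abs

end Pool.Agent.N874.PM
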