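import Pool.Agent.N874.PM.Big5
import Pool.Agent.N874.PP.Cnt

/-!
# A positive proportion over a Galois 2-extension: counting

Project PM (helper874): assembly.
-/

set_option autoImplicit false
set_option linter.all false

open Polynomial IsDedekindDomain WeierstrassCurve WeierstrassCurve.Affine
open Pool.Agent.TH115.GD
open Pool.Agent.N874.PP
open scoped Classical IntermediateField

namespace Pool.Agent.N874.PM

/-- Many curves of the family are not bad. -/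
theorem good_cardT {k : Type} [Field k] [Finite k] (hFAMT : S_FAMT) (hBAD : S_BAD)
    (h6 : (6 : k) ≠ 0) {a₀ b₀ : k}
    (hirr : Irreducible (X ^ 3 + C a₀ * X + C b₀ : k[X])) {T : Finset k[X]} {A B : k[X] → k[X]}
    (hT : GoodT T A B) (Φ : k[X] → Prop)
    (hEX : ∀ r : ℕ, ∃ (S : Finset k[X]) (s : k[X] → k[X]), GoodS S s ∧ S.card = r ∧ Disjoint S T ∧
      ∀ Q ∈ S, Φ Q) :
    ∃ (S : Finset k[X]) (s : k[X] → k[X]) (c : ℝ), GoodS S s ∧ Disjoint S T ∧ (∀ Q ∈ S, Φ Q) ∧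
      0 < c ∧ ∃ N₀ : ℕ, ∀ N ≥ N₀,
      c * (Nat.card k : ℝ) ^ (10 * N) ≤ ({p : k[X] × k[X] | FamT N a₀ b₀ S s T A B p.1 p.2 ∧
        ¬ LBad N S s p.1 p.2}.ncard : ℝ) := by
  obtain ⟨c, hc, hfam⟩ := hFAMT k h6 a₀ b₀ hirr T A B hT
  obtain ⟨r, hr⟩ : ∃ r : ℕ, 4 * (Nat.card k : ℝ) ^ 5 / c < 2 ^ r :=
    pow_unbounded_of_one_lt _ (by norm_num)
  obtain ⟨S, s, hS, hcard, hdis, hΦ⟩ := hEX r
  obtain ⟨N₁, h1⟩ := hfam S s hS hdis
  obtain ⟨N₂, h2⟩ := hBAD k h6 S s hS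
  have hq : (0 : ℝ) < Nat.card k := by exact_mod_cast Nat.card_pos
  set P : ℕ := ∏ Q ∈ S, nm Q ^ 2 with hP
  have hP0 : (0 : ℝ) < P := by
    have : 0 < P := Finset.prod_pos fun Q _ => pow_pos (pow_pos Nat.card_pos _) _
    exact_mod_cast this
  refine ⟨S, s, c / (2 * P), hS, hdis, hΦ, by positivity, max N₁ N₂, fun N hN => ?_⟩
  have hF := h1 N ((le_max_left _ _).trans hN)
  have hB := h2 N ((le_max_right _ _).trans hN)
  have hd := Set.le_ncard_diff {p : k[X] × k[X] | LBad N S s p.1 p.2}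
    {p : k[X] × k[X] | FamT N a₀ b₀ S s T A B p.1 p.2} (lbad_fin N S s)
  have e : {p : k[X] × k[X] | FamT N a₀ b₀ S s T A B p.1 p.2} \
      {p : k[X] × k[X] | LBad N S s p.1 p.2} =
      {p : k[X] × k[X] | FamT N a₀ b₀ S s T A B p.1 p.2 ∧ ¬ LBad N S s p.1 p.2} := rfl
  rw [e] at hd
  set F : ℕ := {p : k[X] × k[X] | FamT N a₀ b₀ S s T A B p.1 p.2}.ncard
  set Bd : ℕ := {p : k[X] × k[X] | LBad N S s p.1 p.2}.ncard
  set G : ℕ := {p : k[X] × k[X] | FamT N a₀ b₀ S s T A B p.1 p.2 ∧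
    ¬ LBad N S s p.1 p.2}.ncard
  have hd' : (F : ℝ) ≤ Bd + G := by
    have : F ≤ Bd + G := by omega
    exact_mod_cast this
  have hB' : (2 : ℝ) ^ r * P * Bd ≤ 2 * (Nat.card k : ℝ) ^ (10 * N + 5) := by
    rw [hcard] at hB
    exact_mod_cast hB
  have hF' : c * (Nat.card k : ℝ) ^ (10 * N) ≤ P * F := hF
  rw [div_lt_iff₀ hc] at hr
  have hPB : P * (Bd : ℝ) ≤ c / 2 * (Nat.card k : ℝ) ^ (10 * N) := by
    have h2r : (0 : ℝ) < 2 ^ r := by positivity
    rw [← mul_le_mul_iff_right₀ h2r]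
    calc 2 ^ r * (P * (Bd : ℝ)) = 2 ^ r * P * Bd := by ring
      _ ≤ 2 * (Nat.card k : ℝ) ^ (10 * N + 5) := hB'
      _ = (4 * (Nat.card k : ℝ) ^ 5) * ((Nat.card k : ℝ) ^ (10 * N) / 2) := by ring
      _ ≤ (2 ^ r * c) * ((Nat.card k : ℝ) ^ (10 * N) / 2) := by gcongr
      _ = 2 ^ r * (c / 2 * (Nat.card k : ℝ) ^ (10 * N)) := by ring
  have hPG : c / 2 * (Nat.card k : ℝ) ^ (10 * N) ≤ P * G := by
    have : (P : ℝ) * F ≤ P * Bd + P * G := by
      rw [← mul_add]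
      exact mul_le_mul_of_nonneg_left hd' hP0.le
    linarith
  calc c / (2 * P) * (Nat.card k : ℝ) ^ (10 * N) = c / 2 * (Nat.card k : ℝ) ^ (10 * N) / P := by
        field_simp
    _ ≤ P * G / P := by gcongr
    _ = G := by field_simp

/-- The points over `M` are divisible by two, there are finitely many of them, and the 2-primary part
of the Tate-Shafarevich group is zero. -/
def GoodM {k M : Type} [Field k] [Field M] [Algebra k[X] M] (R : Type) [CommRing R]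
    [IsDedekindDomain R] [Algebra R M] [IsFractionRing R M] (p : k[X] × k[X]) : Prop :=
  (∀ P : Pt (sW (algebraMap k[X] M p.1) (algebraMap k[X] M p.2)) M,
    ∃ Q : Pt (sW (algebraMap k[X] M p.1) (algebraMap k[X] M p.2)) M, P = (2 : ℕ) • Q) ∧
  Finite (Pt (sW (algebraMap k[X] M p.1) (algebraMap k[X] M p.2)) M) ∧
  ShaR R (sW (algebraMap k[X] M p.1) (algebraMap k[X] M p.2))

/-- The main theorem from the parts. -/
theorem mainM (H : Parts) (hIRK : S_IRK) (hFAMT : S_FAMT) (hBAD : S_BAD) (hIRR : S_IRR)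
    (hTCH : S_TCH) (hGEN : S_GEN) (hSPL : S_SPL) (hGFR : S_GFR) (hFINM : S_FINM)
    (k : Type) [Field k] [Finite k] (h6 : (6 : k) ≠ 0) (K M : Type) [Field K] [Algebra k[X] K]
    [IsFractionRing k[X] K] [Field M] [Algebra K M] [Algebra k[X] M] [IsScalarTower k[X] K M]
    [FiniteDimensional K M] [IsGalois K M] (R : Type) [CommRing R] [IsDedekindDomain R]
    [Algebra R M] [IsFractionRing R M] [Algebra k[X] R] [IsScalarTower k[X] R M]
    [IsIntegralClosure R k[X] M] {n : ℕ} (hM : Module.finrank K M = 2 ^ n) :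
    ∃ c : ℝ, 0 < c ∧ ∃ N₀ : ℕ, ∀ N ≥ N₀, c * (Nat.card k : ℝ) ^ (10 * N) ≤
        ({p : k[X] × k[X] | Crv N p.1 p.2 ∧ GoodM (M := M) R p}.ncard : ℝ) := by
  obtain ⟨a₀, b₀, hirr⟩ := hIRR k h6
  obtain ⟨γ, g, δ, hG, hdeg⟩ := hGEN k K M
  -- the prime divisors of `δ`
  obtain ⟨T, hT', hδ⟩ : ∃ T : Finset k[X], (∀ P ∈ T, P.Monic ∧ Irreducible P) ∧
      ∀ P : k[X], P.Monic → Irreducible P → P ∣ δ → P ∈ T := by
    have hf : {P : k[X] | P.Monic ∧ Irreducible P ∧ P ∣ δ}.Finite := by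
      refine (N530.PP.fin_nd δ.natDegree).subset ?_
      rintro P ⟨-, -, h⟩
      exact natDegree_le_of_dvd h hG.ne
    refine ⟨hf.toFinset, fun P hP => ?_, fun P h1 h2 h3 => ?_⟩
    · have := hf.mem_toFinset.1 hP
      exact ⟨this.1, this.2.1⟩
    · exact hf.mem_toFinset.2 ⟨h1, h2, h3⟩
  obtain ⟨A, B, hT⟩ := hTCH k h6 T hT'
  obtain ⟨S, s, c, hS, hdis, hsp, hc, N₀, hN₀⟩ := good_cardT hFAMT hBAD h6 hirr hT
    (fun Q => SplitMod Q g) (hSPL k K M γ g δ h6 hG hdeg T)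
  set e : ℕ := (∏ Q ∈ S, Q).natDegree with he
  have hq : (0 : ℝ) < Nat.card k := by exact_mod_cast Nat.card_pos
  refine ⟨c / (2 ^ S.card * (Nat.card k : ℝ) ^ (10 * e)), by positivity, N₀ + 1 + e,
    fun M' hM' => ?_⟩
  obtain ⟨N, rfl⟩ : ∃ N, M' = N + e := ⟨M' - e, by omega⟩
  have hN := hN₀ N (by omega)
  set Hs := {p : k[X] × k[X] | Crv (N + e) p.1 p.2 ∧ GoodM (M := M) R p} with hH
  set G := {p : k[X] × k[X] | FamT N a₀ b₀ S s T A B p.1 p.2 ∧ ¬ LBad N S s p.1 p.2} with hG'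
  have hHf : Hs.Finite := (crv_fin (N + e)).subset fun p hp => hp.1
  have hGf : G.Finite := (fin_box (4 * N) (6 * N)).subset fun p hp => ⟨hp.1.fam.da, hp.1.fam.db⟩
  have inj : Function.Injective (algebraMap k[X] M) := by
    rw [IsScalarTower.algebraMap_eq k[X] K M]
    exact (algebraMap K M).injective.comp (IsFractionRing.injective k[X] K)
  have h6M : (6 : M) ≠ 0 := by
    have e : algebraMap k[X] M (C (6 : k)) = 6 := by
      rw [show (C (6 : k) : k[X]) = 6 from rfl, map_ofNat]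
    rw [← e, Ne, map_eq_zero_iff _ inj, C_eq_zero]
    exact h6
  have hcard := card_fib hGf hHf S
    (fun J p => (p.1 * (∏ Q ∈ J, Q) ^ 2, p.2 * (∏ Q ∈ J, Q) ^ 3)) (by
      intro p hp
      obtain ⟨J, hJ, hsel⟩ := selR H hIRK K M R hM h6 hirr hS hp.1 hp.2 hT hG hsp hδ hdis
      refine ⟨J, hJ, ?_⟩
      have hcrv := fam_crv h6 (by omega) hirr hS hp.1.fam hJ (le_refl (N + e))
      have hdM : 4 * (algebraMap k[X] M (p.1 * (∏ Q ∈ J, Q) ^ 2)) ^ 3 +
          27 * (algebraMap k[X] M (p.2 * (∏ Q ∈ J, Q) ^ 3)) ^ 2 ≠ 0 := by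
        have h1 := hcrv.disc
        intro h0
        apply h1
        rw [← map_eq_zero_iff _ inj]
        simpa only [map_add, map_mul, map_pow, map_ofNat] using h0
      have hdK : 4 * (algebraMap k[X] K (p.1 * (∏ Q ∈ J, Q) ^ 2)) ^ 3 +
          27 * (algebraMap k[X] K (p.2 * (∏ Q ∈ J, Q) ^ 3)) ^ 2 ≠ 0 := by
        have h1 := hcrv.disc
        intro h0
        apply h1
        rw [← map_eq_zero_iff _ (IsFractionRing.injective k[X] K)]
        simpa only [map_add, map_mul, map_pow, map_ofNat] using h0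
      obtain ⟨h2, h3⟩ := hGFR M R _ _ h6M hdM hsel
      refine ⟨hcrv, h2, ?_, h3⟩
      have h4 := hFINM k K M (algebraMap k[X] K (p.1 * (∏ Q ∈ J, Q) ^ 2))
        (algebraMap k[X] K (p.2 * (∏ Q ∈ J, Q) ^ 3)) h6 hdK
      rw [← IsScalarTower.algebraMap_apply k[X] K M,
        ← IsScalarTower.algebraMap_apply k[X] K M] at h4
      exact h4 h2) (by
      intro J hJ x hx y hy hxy
      have hD0 : (∏ Q ∈ J, Q) ≠ 0 := by
        rw [Finset.prod_ne_zero_iff]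
        exact fun Q hQ => (hS Q (hJ hQ)).2.1.ne_zero
      rw [Prod.mk.injEq] at hxy
      exact twist_inj hD0 hxy.1 hxy.2)
  have hcard' : (G.ncard : ℝ) ≤ 2 ^ S.card * Hs.ncard := by exact_mod_cast hcard
  calc c / (2 ^ S.card * (Nat.card k : ℝ) ^ (10 * e)) * (Nat.card k : ℝ) ^ (10 * (N + e))
      = c * (Nat.card k : ℝ) ^ (10 * N) / 2 ^ S.card := by
        rw [show 10 * (N + e) = 10 * N + 10 * e by ring, pow_add]
        field_simp
    _ ≤ (G.ncard : ℝ) / 2 ^ S.card := by gcongr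
    _ ≤ (2 ^ S.card * Hs.ncard) / 2 ^ S.card := by gcongr
    _ = Hs.ncard := by field_simp

end Pool.Agent.N874.PM
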