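import Pool.Agent.N874.PP.Sel

/-!
# The relaxed Selmer group of a curve which is not bad: the version in the cubic field

Project PM (helper874).
-/

set_option autoImplicit false
set_option linter.all false

open Polynomial IsDedekindDomain WeierstrassCurve WeierstrassCurve.Affine
open Pool.Agent.TH115.GD
open Pool.Agent.N874.PP
open scoped Classical

namespace Pool.Agent.N874.PM

theorem core2 {k K L : Type} (O : Type) [Field k] [Finite k] [Field K] [Algebra k[X] K]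
    [IsFractionRing k[X] K]
    [Field L] [Algebra K L] [Algebra k[X] L] [IsScalarTower k[X] K L] [CommRing O]
    [IsDedekindDomain O] [Algebra O L] [IsFractionRing O L] [Algebra k[X] O]
    [IsScalarTower k[X] O L] [IsIntegralClosure O k[X] L] [Module.Finite k[X] O]
    {a b : k[X]} {θ : L} {N : ℕ} {a₀ b₀ : k} {S : Finset k[X]} {s : k[X] → k[X]} (hCLS : S_CLS) (hEXQ : S_EXQ) (hNS : S_NS) (hLIN : S_LIN) (hREC : S_REC)
    (hSD : S_SD) (hTTV : S_TTV) (hLB : S_LB)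
    (h6 : (6 : k) ≠ 0) (hc : IsCub K a b θ)
    (hirr : Irreducible (X ^ 3 + C a₀ * X + C b₀ : k[X])) (hS : GoodS S s)
    (hF : Fam N a₀ b₀ S s a b) (hnb : ¬ LBad N S s a b) :
    ∃ J ⊆ S, ∀ α : L, α ≠ 0 → IsSquare (Algebra.norm K α) →
      (∀ 𝔓 : HeightOneSpectrum O, (∀ Q ∈ J, ¬ Ov Q 𝔓) → Ev 𝔓 α) →
      (∀ Q ∈ J, ∀ 𝔓 : HeightOneSpectrum O, Ov Q 𝔓 → 𝔓.valuation L θ = 1 →
        U0 𝔓 (algebraMap k[X] L Q * θ) α) →
      (∀ Q ∈ J, ∀ 𝔓 : HeightOneSpectrum O, Ov Q 𝔓 → 𝔓.valuation L θ < 1 → Ev 𝔓 α) →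
      IsSquare α := by
  haveI : Algebra.IsIntegral k[X] O := IsIntegralClosure.isIntegral_algebra k[X] L
  have h2 : (2 : k) ≠ 0 := by
    intro h
    apply h6
    have : (6 : k) = 2 * 3 := by norm_num
    rw [this, h, zero_mul]
  have hex : ∀ Q ∈ S, ∃ 𝔓₁ 𝔮 : HeightOneSpectrum O, Ov Q 𝔓₁ ∧ Ov Q 𝔮 ∧
      𝔓₁.valuation L θ < 1 ∧ 𝔮.valuation L θ = 1 ∧ ¬ Ev 𝔮 (algebraMap k[X] L Q * θ) ∧
      ∀ 𝔓 : HeightOneSpectrum O, Ov Q 𝔓 → 𝔓 = 𝔓₁ ∨ 𝔓 = 𝔮 := fun Q hQ =>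
    hEXQ k K L O a b θ h6 hc hF.sq Q (hS Q hQ).2.1 (hF.rb Q hQ) (fam_ns hS hF hQ)
  haveI hne : Nonempty (HeightOneSpectrum O) := by
    have hinj : Function.Injective (algebraMap k[X] O) := by
      have h1 : Function.Injective (algebraMap k[X] L) := by
        rw [IsScalarTower.algebraMap_eq k[X] K L]
        exact (algebraMap K L).injective.comp (IsFractionRing.injective k[X] K)
      rw [IsScalarTower.algebraMap_eq k[X] O L] at h1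
      exact Function.Injective.of_comp h1
    have hnf : ¬ IsField O := fun h => Polynomial.not_isField k
      (isField_of_isIntegral_of_isField hinj h)
    obtain ⟨m, hm⟩ := Ideal.exists_maximal O
    exact ⟨⟨m, hm.isPrime, Ring.ne_bot_of_isMaximal_of_not_isField hm hnf⟩⟩
  let 𝔭 : k[X] → HeightOneSpectrum O := fun Q =>
    if hQ : Q ∈ S then (hex Q hQ).choose else Classical.arbitrary _
  let 𝔮 : k[X] → HeightOneSpectrum O := fun Q =>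
    if hQ : Q ∈ S then (hex Q hQ).choose_spec.choose else Classical.arbitrary _
  have hpq : ∀ Q ∈ S, Ov Q (𝔭 Q) ∧ Ov Q (𝔮 Q) ∧ (𝔭 Q).valuation L θ < 1 ∧
      (𝔮 Q).valuation L θ = 1 ∧ ¬ Ev (𝔮 Q) (algebraMap k[X] L Q * θ) ∧
      ∀ 𝔓 : HeightOneSpectrum O, Ov Q 𝔓 → 𝔓 = 𝔭 Q ∨ 𝔓 = 𝔮 Q := by
    intro Q hQ
    have h := (hex Q hQ).choose_spec.choose_spec
    simp only [𝔭, 𝔮, dif_pos hQ]
    exact h
  -- the group `M`
  let M : Set L := {α | α ≠ 0 ∧ IsSquare (Algebra.norm K α) ∧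
    ∀ 𝔓 : HeightOneSpectrum O, (∀ Q ∈ S, 𝔓 ≠ 𝔮 Q) → Ev 𝔓 α}
  let ψ : L → (S → ZMod 2 × ZMod 2) := fun α Q => cl (𝔮 Q) (algebraMap k[X] L Q * θ) α
  have hϖ : ∀ Q ∈ S, algebraMap k[X] L Q * θ ≠ 0 := by
    intro Q hQ h0
    exact (hpq Q hQ).2.2.2.2.1 (by rw [h0]; exact ⟨0, by simp⟩)
  have hψ : ∀ α β : L, α ≠ 0 → β ≠ 0 → ψ (α * β) = ψ α + ψ β := by
    intro α β hα hβ
    funext Q
    have h := hCLS k L O Q (𝔮 Q) (algebraMap k[X] L Q * θ) h2 (hS Q Q.2).2.1 (hpq Q Q.2).2.1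
      (hϖ Q Q.2) (hpq Q Q.2).2.2.2.2.1 α β hα hβ
    exact Prod.ext (cl_add_aux h.1) (cl_add_aux h.2)
  have hEvmul : ∀ (𝔓 : HeightOneSpectrum O) (x y : L), Ev 𝔓 x → Ev 𝔓 y → Ev 𝔓 (x * y) := by
    rintro 𝔓 x y ⟨u, hu⟩ ⟨v, hv⟩
    exact ⟨u * v, by rw [map_mul, map_mul, hu, hv, mul_pow]⟩
  have hMmul : ∀ α β, α ∈ M → β ∈ M → α * β ∈ M := by
    rintro α β ⟨h1, h2, h3⟩ ⟨h1', h2', h3'⟩
    refine ⟨mul_ne_zero h1 h1', ?_, fun 𝔓 h𝔓 => hEvmul 𝔓 _ _ (h3 𝔓 h𝔓) (h3' 𝔓 h𝔓)⟩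
    rw [map_mul]
    exact h2.mul h2'
  have hM1 : (1 : L) ∈ M := ⟨one_ne_zero, by rw [map_one]; exact IsSquare.one,
    fun 𝔓 _ => ⟨1, by rw [map_one, one_pow]⟩⟩
  let Λ : AddSubgroup (S → ZMod 2 × ZMod 2) :=
    { carrier := {l | ∃ α ∈ M, ψ α = l}
      add_mem' := by
        rintro _ _ ⟨α, hα, rfl⟩ ⟨β, hβ, rfl⟩
        exact ⟨α * β, hMmul α β hα hβ, hψ α β hα.1 hβ.1⟩
      zero_mem' := by
        refine ⟨1, hM1, ?_⟩
        have h := hψ 1 1 one_ne_zero one_ne_zero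
        rw [mul_one] at h
        exact left_eq_add.1 h
      neg_mem' := by
        rintro _ ⟨α, hα, rfl⟩
        refine ⟨α, hα, ?_⟩
        rw [eq_neg_iff_add_eq_zero]
        funext Q
        exact Prod.ext (CharTwo.add_self_eq_zero _) (CharTwo.add_self_eq_zero _) }
  have hiso : ∀ l ∈ Λ, ∑ Q : S, (l Q).1 * (l Q).2 = 0 := by
    rintro _ ⟨α, hα, rfl⟩
    have h := hREC k K L O a b θ N a₀ b₀ S s h6 hc hirr hS hF 𝔮
      (fun Q hQ => ⟨(hpq Q hQ).2.1, (hpq Q hQ).2.2.2.1⟩) α hα.1 hα.2.1 hα.2.2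
    have e1 : ∑ Q : S, (ψ α Q).1 * (ψ α Q).2 = ∑ Q ∈ S,
        (if ¬ Ev (𝔮 Q) α ∧ ¬ Sq1 (𝔮 Q) (α * (algebraMap k[X] L Q * θ)) then (1 : ZMod 2) else 0) := by
      rw [← Finset.sum_coe_sort S]
      refine Finset.sum_congr rfl fun Q _ => ?_
      simp only [ψ, cl]
      by_cases he : Ev (𝔮 Q) α
      · rw [if_pos he, zero_mul, if_neg (fun h => h.1 he)]
      · by_cases hs : Sq1 (𝔮 Q) (α * (algebraMap k[X] L Q * θ))
        · have hu : U0 (𝔮 Q) (algebraMap k[X] L Q * θ) α := ⟨fun h => absurd h he, fun _ => hs⟩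
          rw [if_neg he, if_pos hu, mul_zero, if_neg (fun h => h.2 hs)]
        · have hu : ¬ U0 (𝔮 Q) (algebraMap k[X] L Q * θ) α := fun h => hs (h.2 he)
          rw [if_neg he, if_neg hu, mul_one, if_pos ⟨he, hs⟩]
    rw [e1, Finset.sum_ite, Finset.sum_const_zero, add_zero, Finset.sum_const, nsmul_eq_mul,
      mul_one]
    exact (ZMod.natCast_eq_zero_iff_even).2 h
  obtain ⟨J, hJ⟩ := hLIN S Λ hiso
  let J' : Finset k[X] := S.filter fun Q => ∃ h : Q ∈ S, (⟨Q, h⟩ : S) ∈ J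
  have hJ'S : J' ⊆ S := Finset.filter_subset _ _
  refine ⟨J', hJ'S, fun α hα hN hev0 hu0 hp0 => ?_⟩
  have hαM : α ∈ M := by
    refine ⟨hα, hN, fun 𝔓 h𝔓 => ?_⟩
    by_cases hex : ∃ Q ∈ J', Ov Q 𝔓
    · obtain ⟨Q, hQJ, hQ𝔓⟩ := hex
      rcases (hpq Q (hJ'S hQJ)).2.2.2.2.2 𝔓 hQ𝔓 with rfl | rfl
      · exact hp0 Q hQJ _ hQ𝔓 (hpq Q (hJ'S hQJ)).2.2.1
      · exact absurd rfl (h𝔓 Q (hJ'S hQJ))
    · exact hev0 𝔓 fun Q hQJ hQ𝔓 => hex ⟨Q, hQJ, hQ𝔓⟩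
  have hz : ψ α = 0 := by
    refine hJ _ ⟨α, hαM, rfl⟩ (fun Q hQ => ?_) (fun Q hQ => ?_)
    · have hQJ : (Q : k[X]) ∈ J' := Finset.mem_filter.2 ⟨Q.2, Q.2, hQ⟩
      exact if_pos (hu0 Q hQJ _ (hpq Q Q.2).2.1 (hpq Q Q.2).2.2.2.1)
    · have hQJ : (Q : k[X]) ∉ J' := fun h => hQ (Finset.mem_filter.1 h).2.2
      refine if_pos (hev0 (𝔮 Q) fun Q' hQ' hO => ?_)
      have hS' := hS Q' (hJ'S hQ')
      have : Q' = (Q : k[X]) := below_unique hS'.1 hS'.2.1 (hS Q Q.2).1 (hS Q Q.2).2.1 hO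
        (hpq Q Q.2).2.1
      rw [this] at hQ'
      exact hQJ hQ'
  have hz1 : ∀ Q ∈ S, Ev (𝔮 Q) α ∧ U0 (𝔮 Q) (algebraMap k[X] L Q * θ) α := by
    intro Q hQ
    have h1 := congrFun hz ⟨Q, hQ⟩
    have h2 := congrArg Prod.fst h1
    have h3 := congrArg Prod.snd h1
    constructor
    · by_contra hn
      have : (if Ev (𝔮 Q) α then (0 : ZMod 2) else 1) = 0 := h2
      rw [if_neg hn] at this
      exact one_ne_zero this
    · by_contra hn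
      have : (if U0 (𝔮 Q) (algebraMap k[X] L Q * θ) α then (0 : ZMod 2) else 1) = 0 := h3
      rw [if_neg hn] at this
      exact one_ne_zero this
  have hEv : ∀ 𝔓 : HeightOneSpectrum O, Ev 𝔓 α := by
    intro 𝔓
    by_cases h : ∀ Q ∈ S, 𝔓 ≠ 𝔮 Q
    · exact hαM.2.2 𝔓 h
    · push_neg at h
      obtain ⟨Q, hQ, rfl⟩ := h
      exact (hz1 Q hQ).1
  have hSq : ∀ Q ∈ S, ∀ 𝔓 : HeightOneSpectrum O, Ov Q 𝔓 → Sq1 𝔓 α := by
    intro Q hQ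
    refine hNS k K L O a b θ h6 hc hF.sq Q (hS Q hQ).2.1 (hF.rb Q hQ) (fam_ns hS hF hQ) α hα hN
      (fun 𝔓 _ _ => hEv 𝔓) (fun 𝔓 h𝔓 hv => ?_)
    rcases (hpq Q hQ).2.2.2.2.2 𝔓 h𝔓 with rfl | rfl
    · exact absurd hv (hpq Q hQ).2.2.1.ne
    · exact (hz1 Q hQ).2.1 (hz1 Q hQ).1
  by_contra hns
  obtain ⟨e, he⟩ := hSD k K L O a b θ h6 hc hF.sq α hα hEv
  exact hnb (hLB k K L a b θ N S s a₀ b₀ h6 hc hirr hS hF α e hα hN hns he fun Q hQ =>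
    hTTV k K L O a b θ h6 hc hF.sq α e hα he Q (hS Q hQ).2.1 (hF.rb Q hQ) (fam_ns hS hF hQ)
      (hSq Q hQ))

end Pool.Agent.N874.PM
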